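import Mathlib

/-!
Generic rank-one perturbations, part A: the unbounded component of the resolvent set, lower bounds for
the resolvent, a maximum principle.
-/

set_option autoImplicit false
set_option linter.unusedSectionVars false

open Filter Topology Metric Set

namespace Pool.Agent.W768.RK

/-- maximum principle: a continuous function on the plane, holomorphic on the open connected set `Ω`,
which contains a neighbourhood of infinity, zero outside `Ω`, tending to zero at infinity, is zero -/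
theorem max_principle {Ω : Set ℂ} (ho : IsOpen Ω) (hc : IsPreconnected Ω) {r : ℝ}
    (hr : {z : ℂ | r < ‖z‖} ⊆ Ω) {h : ℂ → ℂ} (hcont : Continuous h) (hd : DifferentiableOn ℂ h Ω)
    (h0 : ∀ z, z ∉ Ω → h z = 0) (hinf : Tendsto h (Bornology.cobounded ℂ) (𝓝 0)) (z : ℂ) : h z = 0 := by
  by_contra hz
  -- the maximum of the norm is attained
  have hpos : 0 < ‖h z‖ := norm_pos_iff.2 hz
  have hev : ∀ᶠ w in Bornology.cobounded ℂ, ‖h w‖ < ‖h z‖ := by
    have := hinf.norm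
    rw [norm_zero] at this
    exact this.eventually (gt_mem_nhds hpos)
  obtain ⟨w, hw⟩ : ∃ w, ∀ v, ‖h v‖ ≤ ‖h w‖ := by
    rw [Metric.cobounded_eq_cocompact] at hev
    exact (hcont.norm).exists_forall_ge' (x₀ := z) (hev.mono fun _ h => h.le)
  have hwp : 0 < ‖h w‖ := hpos.trans_le (hw z)
  have hwΩ : w ∈ Ω := by
    by_contra h1
    rw [h0 w h1, norm_zero] at hwp
    exact lt_irrefl _ hwp
  have heq := Complex.norm_eqOn_of_isPreconnected_of_isMaxOn hc ho hd hwΩ
    (isMaxOn_iff.2 fun v _ => hw v)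
  -- contradiction at infinity
  have hev2 : ∀ᶠ v in Bornology.cobounded ℂ, ‖h v‖ < ‖h w‖ := by
    have := hinf.norm
    rw [norm_zero] at this
    exact this.eventually (gt_mem_nhds hwp)
  have hev3 : ∀ᶠ v in Bornology.cobounded ℂ, r < ‖v‖ :=
    (tendsto_norm_cobounded_atTop).eventually_gt_atTop r
  obtain ⟨v, hv1, hv2⟩ := (hev2.and hev3).exists
  have := heq (hr hv2)
  simp only [Function.comp] at this
  exact hv1.ne this

/-- the exterior of a disc is preconnected -/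
theorem preconn_ext (r : ℝ) (hr : 0 ≤ r) : IsPreconnected {z : ℂ | r < ‖z‖} := by
  have h1 : {z : ℂ | r < ‖z‖} = (fun p : ℝ × ℝ => (p.1 : ℂ) * Complex.exp (p.2 * Complex.I)) ''
      (Ioi r ×ˢ univ) := by
    ext z
    constructor
    · intro hz
      refine ⟨(‖z‖, Complex.arg z), ⟨hz, mem_univ _⟩, ?_⟩
      exact Complex.norm_mul_exp_arg_mul_I z
    · rintro ⟨⟨a, b⟩, ⟨ha, -⟩, rfl⟩
      simp only [mem_Ioi] at ha
      simp only [mem_ofPred_eq, norm_mul, Complex.norm_exp_ofReal_mul_I, mul_one, Complex.norm_real]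
      rw [Real.norm_of_nonneg (hr.trans ha.le)]
      exact ha
  rw [h1]
  refine IsPreconnected.image (isPreconnected_Ioi.prod isPreconnected_univ) _ ?_
  fun_prop

section
variable {X : Type*} [NormedAddCommGroup X] [NormedSpace ℂ X] [CompleteSpace X] [Nontrivial X]

/-- the unbounded component of the resolvent set -/
def Om (T : X →L[ℂ] X) : Set ℂ := connectedComponentIn (resolventSet ℂ T) ((‖T‖ + 1 : ℝ) : ℂ)

theorem big_res (T : X →L[ℂ] X) : {z : ℂ | ‖T‖ < ‖z‖} ⊆ resolventSet ℂ T :=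
  fun _ hz => spectrum.mem_resolventSet_of_norm_lt hz

theorem Om_sub (T : X →L[ℂ] X) : Om T ⊆ resolventSet ℂ T := connectedComponentIn_subset _ _

theorem Om_open (T : X →L[ℂ] X) : IsOpen (Om T) :=
  (spectrum.isOpen_resolventSet T).connectedComponentIn

theorem Om_preconn (T : X →L[ℂ] X) : IsPreconnected (Om T) := isPreconnected_connectedComponentIn

theorem base_mem (T : X →L[ℂ] X) : ((‖T‖ + 1 : ℝ) : ℂ) ∈ {z : ℂ | ‖T‖ < ‖z‖} := by
  simp only [mem_ofPred_eq, Complex.norm_real]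
  rw [Real.norm_of_nonneg (by positivity)]
  linarith

theorem big_Om (T : X →L[ℂ] X) : {z : ℂ | ‖T‖ < ‖z‖} ⊆ Om T :=
  (preconn_ext _ (norm_nonneg T)).subset_connectedComponentIn (base_mem T) (big_res T)

theorem bdry (T : X →L[ℂ] X) {z : ℂ} (hz : z ∈ closure (Om T)) (hz' : z ∉ Om T) :
    z ∈ spectrum ℂ T := by
  by_contra h
  have hz2 : z ∈ resolventSet ℂ T := spectrum.notMem_iff.1 h
  obtain ⟨ε, hε, hb⟩ := Metric.isOpen_iff.1 (spectrum.isOpen_resolventSet T) z hz2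
  obtain ⟨w, hw, hd⟩ := Metric.mem_closure_iff.1 hz ε hε
  have hpre : IsPreconnected (ball z ε) := (convex_ball z ε).isPreconnected
  have hwb : w ∈ ball z ε := by rw [mem_ball, dist_comm]; exact hd
  have h1 : ball z ε ⊆ connectedComponentIn (resolventSet ℂ T) w :=
    hpre.subset_connectedComponentIn hwb hb
  have h2 : connectedComponentIn (resolventSet ℂ T) ((‖T‖ + 1 : ℝ) : ℂ) =
      connectedComponentIn (resolventSet ℂ T) w := connectedComponentIn_eq hw
  apply hz'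
  unfold Om
  rw [h2]
  exact h1 (mem_ball_self hε)

/-- the defining property of the resolvent -/
theorem res_mul (T : X →L[ℂ] X) {z : ℂ} (hz : z ∈ resolventSet ℂ T) :
    resolvent T z * (algebraMap ℂ (X →L[ℂ] X) z - T) = 1 :=
  Ring.inverse_mul_cancel _ hz

theorem mul_res (T : X →L[ℂ] X) {z : ℂ} (hz : z ∈ resolventSet ℂ T) :
    (algebraMap ℂ (X →L[ℂ] X) z - T) * resolvent T z = 1 :=
  Ring.mul_inverse_cancel _ hz

theorem res_lower_inf (T : X →L[ℂ] X) {z : ℂ} (hz : z ∈ resolventSet ℂ T) :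
    1 ≤ ‖resolvent T z‖ * (‖z‖ + ‖T‖) := by
  have h := congrArg norm (res_mul T hz)
  rw [norm_one] at h
  rw [← h]
  refine (norm_mul_le _ _).trans (mul_le_mul_of_nonneg_left ?_ (norm_nonneg _))
  refine (norm_sub_le _ _).trans ?_
  rw [norm_algebraMap']

theorem res_pos (T : X →L[ℂ] X) {z : ℂ} (hz : z ∈ resolventSet ℂ T) : 0 < ‖resolvent T z‖ := by
  rcases (norm_nonneg (resolvent T z)).eq_or_lt with h | h
  · have := res_lower_inf T hz
    rw [← h, zero_mul] at this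
    linarith
  · exact h

theorem res_lower (T : X →L[ℂ] X) {z a : ℂ} (hz : z ∈ resolventSet ℂ T) (ha : a ∈ spectrum ℂ T) :
    1 ≤ ‖resolvent T z‖ * ‖z - a‖ := by
  by_contra hlt
  push Not at hlt
  apply ha
  -- `a - T = (z - T) (1 - (z - a) R(z))`
  have h1 : algebraMap ℂ (X →L[ℂ] X) a - T =
      (algebraMap ℂ (X →L[ℂ] X) z - T) * (1 - (z - a) • resolvent T z) := by
    rw [mul_sub, mul_one, mul_smul_comm, mul_res T hz, Algebra.smul_def, mul_one, map_sub]
    abel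
  change IsUnit (algebraMap ℂ (X →L[ℂ] X) a - T)
  rw [h1]
  refine IsUnit.mul hz ?_
  refine (Units.oneSub ((z - a) • resolvent T z) ?_).isUnit
  rw [norm_smul, mul_comm]
  exact hlt

theorem res_diff (T : X →L[ℂ] X) {z : ℂ} (hz : z ∈ resolventSet ℂ T) :
    DifferentiableAt ℂ (resolvent T) z := (spectrum.hasDerivAt_resolvent_const_left hz).differentiableAt

/-- the function `φ(R(z) x)` -/
noncomputable def Fn (T : X →L[ℂ] X) (p : X × (X →L[ℂ] ℂ)) (z : ℂ) : ℂ := p.2 (resolvent T z p.1)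

theorem Fn_diff (T : X →L[ℂ] X) (p : X × (X →L[ℂ] ℂ)) {z : ℂ} (hz : z ∈ resolventSet ℂ T) :
    DifferentiableAt ℂ (Fn T p) z := by
  unfold Fn
  have h1 : DifferentiableAt ℂ (fun z => resolvent T z p.1) z :=
    (res_diff T hz).clm_apply (differentiableAt_const _)
  exact p.2.differentiableAt.comp z h1

theorem Fn_diffOn (T : X →L[ℂ] X) (p : X × (X →L[ℂ] ℂ)) : DifferentiableOn ℂ (Fn T p) (Om T) :=
  fun _ hz => (Fn_diff T p (Om_sub T hz)).differentiableWithinAt

theorem Fn_inf (T : X →L[ℂ] X) (p : X × (X →L[ℂ] ℂ)) :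
    Tendsto (Fn T p) (Bornology.cobounded ℂ) (𝓝 0) := by
  have h := spectrum.resolvent_tendsto_cobounded (𝕜 := ℂ) T
  have h1 : Tendsto (fun z => p.2 (resolvent T z p.1)) (Bornology.cobounded ℂ)
      (𝓝 (p.2 ((0 : X →L[ℂ] X) p.1))) := by
    refine (p.2.continuous.tendsto _).comp ?_
    exact ((ContinuousLinearMap.apply ℂ X p.1).continuous.tendsto _).comp h
  rw [ContinuousLinearMap.zero_apply, map_zero] at h1
  exact h1

theorem solve2 {a b c w : ℂ} {d ε : ℝ} (hd : 0 < d) (hε : 0 < ε) (h : ‖w - a‖ ≤ ε ^ 2 * d)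
    (hbc : ‖c‖ ≤ ‖b‖) :
    ∃ s t : ℂ, ‖s‖ ≤ ε ∧ ‖t‖ ≤ ε ∧ a + s * b + t * c + s * t * d = w := by
  obtain ⟨t, ht, htb⟩ : ∃ t : ℂ, ‖t‖ ≤ ε ∧ ‖b + t * d‖ = ‖b‖ + ε * d := by
    by_cases hb : b = 0
    · refine ⟨(ε : ℂ), by simp [abs_of_pos hε], ?_⟩
      rw [hb, zero_add, norm_zero, zero_add, norm_mul, Complex.norm_real, Complex.norm_real,
        Real.norm_of_nonneg hε.le, Real.norm_of_nonneg hd.le]
    · have hb' : (0 : ℝ) < ‖b‖ := norm_pos_iff.2 hb
      refine ⟨((ε / ‖b‖ : ℝ) : ℂ) * b, ?_, ?_⟩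
      · rw [norm_mul, Complex.norm_real, Real.norm_of_nonneg (by positivity),
          div_mul_cancel₀ _ hb'.ne']
      · have : b + ((ε / ‖b‖ : ℝ) : ℂ) * b * d = ((1 + ε / ‖b‖ * d : ℝ) : ℂ) * b := by
          push_cast; ring
        rw [this, norm_mul, Complex.norm_real, Real.norm_of_nonneg (by positivity)]
        field_simp
  have hpos : 0 < ‖b + t * d‖ := by rw [htb]; positivity
  have hne : b + t * d ≠ 0 := norm_pos_iff.1 hpos
  refine ⟨(w - a - t * c) / (b + t * d), t, ?_, ht, ?_⟩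
  · rw [norm_div, div_le_iff₀ hpos, htb]
    calc ‖w - a - t * c‖ ≤ ‖w - a‖ + ‖t * c‖ := norm_sub_le _ _
      _ ≤ ε ^ 2 * d + ε * ‖b‖ := by
          rw [norm_mul]
          exact add_le_add h (mul_le_mul ht hbc (norm_nonneg _) hε.le)
      _ = ε * (‖b‖ + ε * d) := by ring
  · have : a + (w - a - t * c) / (b + t * d) * b + t * c +
        (w - a - t * c) / (b + t * d) * t * d =
        a + t * c + (w - a - t * c) / (b + t * d) * (b + t * d) := by ring
    rw [this, div_mul_cancel₀ _ hne]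
    ring

theorem solve2' {a b c w : ℂ} {d ε : ℝ} (hd : 0 < d) (hε : 0 < ε) (h : ‖w - a‖ ≤ ε ^ 2 * d) :
    ∃ s t : ℂ, ‖s‖ ≤ ε ∧ ‖t‖ ≤ ε ∧ a + s * b + t * c + s * t * d = w := by
  rcases le_total ‖c‖ ‖b‖ with h1 | h1
  · exact solve2 hd hε h h1
  · obtain ⟨s, t, hs, ht, he⟩ := solve2 hd hε h h1
    exact ⟨t, s, ht, hs, by rw [← he]; ring⟩

/-- perturbation lemma: values close to `φ(A x)`, relative to `‖A‖`, are attained by a small
perturbation of `x` and `φ` -/
theorem perturb (A : X →L[ℂ] X) (p : X × (X →L[ℂ] ℂ)) {ε : ℝ} (hε : 0 < ε) {w : ℂ}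
    (h : ‖w - p.2 (A p.1)‖ ≤ ε ^ 2 * (‖A‖ / 2)) :
    ∃ q : X × (X →L[ℂ] ℂ), dist q p ≤ ε ∧ q.2 (A q.1) = w := by
  rcases (norm_nonneg A).eq_or_lt with hA | hA
  · refine ⟨p, by simp [hε.le], ?_⟩
    rw [← hA] at h
    simp only [zero_div, mul_zero] at h
    exact (sub_eq_zero.1 (norm_le_zero_iff.1 h)).symm
  -- almost norming vector
  obtain ⟨u, hu1, hu2⟩ : ∃ u : X, ‖u‖ ≤ 1 ∧ ‖A‖ / 2 ≤ ‖A u‖ := by
    by_contra hcon
    push Not at hcon
    have : ‖A‖ ≤ ‖A‖ / 2 := by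
      refine ContinuousLinearMap.opNorm_le_of_unit_norm (by positivity) fun x hx => ?_
      exact (hcon x hx.le).le
    linarith
  obtain ⟨θ, hθ1, hθ2⟩ := exists_dual_vector'' ℂ (A u)
  have hAu : 0 < ‖A u‖ := lt_of_lt_of_le (by positivity) hu2
  have h' : ‖w - p.2 (A p.1)‖ ≤ ε ^ 2 * ‖A u‖ :=
    h.trans (mul_le_mul_of_nonneg_left hu2 (by positivity))
  obtain ⟨s, t, hs, ht, he⟩ := solve2' (b := p.2 (A u)) (c := θ (A p.1)) hAu hε h'
  refine ⟨(p.1 + s • u, p.2 + t • θ), ?_, ?_⟩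
  · rw [Prod.dist_eq, max_le_iff]
    constructor
    · rw [dist_eq_norm]
      simp only [add_sub_cancel_left]
      rw [norm_smul]
      calc ‖s‖ * ‖u‖ ≤ ε * 1 := mul_le_mul hs hu1 (norm_nonneg _) hε.le
        _ = ε := mul_one _
    · rw [dist_eq_norm]
      simp only [add_sub_cancel_left]
      rw [norm_smul]
      calc ‖t‖ * ‖θ‖ ≤ ε * 1 := mul_le_mul ht hθ1 (norm_nonneg _) hε.le
        _ = ε := mul_one _
  · rw [← he]
    simp only [map_add, map_smul, ContinuousLinearMap.add_apply, ContinuousLinearMap.smul_apply,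
      smul_eq_mul, hθ2]
    simp only [Complex.coe_algebraMap]
    ring
end

end Pool.Agent.W768.RK
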