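import Pool.Agent.W768.RK.A

/-!
Generic rank-one perturbations, part B: dividing out finitely many zeros, and the key lemma when the
spectrum is infinite.
-/

set_option autoImplicit false
set_option linter.unusedSectionVars false

open Filter Topology Metric Set

namespace Pool.Agent.W768.RK

theorem factor {Ω : Set ℂ} (ho : IsOpen Ω) (Z : Finset ℂ) : ∀ (f : ℂ → ℂ), DifferentiableOn ℂ f Ω →
    (∀ z, z ∈ Z ↔ z ∈ Ω ∧ f z = 0) → (∀ z ∈ Z, ¬ ∀ᶠ v in 𝓝 z, f v = 0) →
    ∃ (n : ℂ → ℕ) (G : ℂ → ℂ), DifferentiableOn ℂ G Ω ∧ (∀ z ∈ Ω, G z ≠ 0) ∧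
      ∀ z ∈ Ω, f z = (∏ a ∈ Z, (z - a) ^ n a) * G z := by
  classical
  induction Z using Finset.induction_on with
  | empty =>
    intro f hf hZ _
    refine ⟨fun _ => 0, f, hf, fun z hz h => ?_, fun z _ => by simp⟩
    exact absurd ((hZ z).2 ⟨hz, h⟩) (Finset.notMem_empty z)
  | insert a Z ha ih =>
    intro f hf hZ hnl
    have haΩ : a ∈ Ω := ((hZ a).1 (Finset.mem_insert_self a Z)).1
    have han : AnalyticAt ℂ f a := hf.analyticAt (ho.mem_nhds haΩ)
    obtain ⟨n, g, hg, hga, hfg⟩ := (AnalyticAt.exists_eventuallyEq_pow_smul_nonzero_iff han).2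
      (hnl a (Finset.mem_insert_self a Z))
    -- the quotient
    set f1 : ℂ → ℂ := fun z => if z = a then g a else f z / (z - a) ^ n with hf1
    have hne : ∀ z, z ≠ a → ∀ᶠ v in 𝓝 z, f1 v = f v / (v - a) ^ n := by
      intro z hz
      filter_upwards [isOpen_ne.mem_nhds hz] with v hv
      simp only [hf1, if_neg hv]
    have hat : ∀ᶠ v in 𝓝 a, f1 v = g v := by
      filter_upwards [hfg] with v hv
      by_cases hva : v = a
      · simp only [hf1, hva, if_true]
      · have : (v - a) ^ n ≠ 0 := pow_ne_zero _ (sub_ne_zero.2 hva)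
        simp only [hf1, if_neg hva, hv, smul_eq_mul]
        field_simp
    have hd : DifferentiableOn ℂ f1 Ω := by
      intro z hz
      by_cases hza : z = a
      · rw [hza]
        exact ((hg.differentiableAt).congr_of_eventuallyEq hat).differentiableWithinAt
      · have h1 : DifferentiableAt ℂ (fun v => f v / (v - a) ^ n) z := by
          refine (hf.differentiableAt (ho.mem_nhds hz)).div (by fun_prop) ?_
          exact pow_ne_zero _ (sub_ne_zero.2 hza)
        exact (h1.congr_of_eventuallyEq (hne z hza)).differentiableWithinAt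
    have hZ1 : ∀ z, z ∈ Z ↔ z ∈ Ω ∧ f1 z = 0 := by
      intro z
      by_cases hza : z = a
      · rw [hza]
        simp only [hf1, if_true]
        exact ⟨fun h => absurd h ha, fun h => absurd h.2 hga⟩
      · have hp : (z - a) ^ n ≠ 0 := pow_ne_zero _ (sub_ne_zero.2 hza)
        simp only [hf1, if_neg hza, div_eq_zero_iff, hp, or_false]
        rw [← hZ z, Finset.mem_insert]
        simp [hza]
    have hnl1 : ∀ z ∈ Z, ¬ ∀ᶠ v in 𝓝 z, f1 v = 0 := by
      intro z hz hloc
      have hza : z ≠ a := fun h => ha (h ▸ hz)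
      refine hnl z (Finset.mem_insert_of_mem hz) ?_
      filter_upwards [hloc, hne z hza, isOpen_ne.mem_nhds hza] with v h1 h2 h3
      rw [h2, div_eq_zero_iff] at h1
      exact h1.resolve_right (pow_ne_zero _ (sub_ne_zero.2 h3))
    obtain ⟨n1, G, hG, hG0, hG1⟩ := ih f1 hd hZ1 hnl1
    refine ⟨fun z => if z = a then n else n1 z, G, hG, hG0, fun z hz => ?_⟩
    rw [Finset.prod_insert ha]
    have hprod : ∏ b ∈ Z, (z - b) ^ (if b = a then n else n1 b) = ∏ b ∈ Z, (z - b) ^ n1 b := by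
      refine Finset.prod_congr rfl fun b hb => ?_
      have hba : b ≠ a := fun h => ha (h ▸ hb)
      rw [if_neg hba]
    simp only [if_true]
    rw [hprod, mul_assoc, ← hG1 z hz]
    by_cases hza : z = a
    · rw [hza]
      simp only [hf1, if_true]
      have h0 : f a = 0 := ((hZ a).1 (Finset.mem_insert_self a Z)).2
      have h1 := hfg.self_of_nhds
      rw [h0] at h1 ⊢
      rw [smul_eq_mul] at h1
      exact h1
    · simp only [hf1, if_neg hza]
      rw [mul_div_cancel₀ _ (pow_ne_zero _ (sub_ne_zero.2 hza))]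

section
variable {X : Type*} [NormedAddCommGroup X] [NormedSpace ℂ X] [CompleteSpace X] [Nontrivial X]

theorem not_loc (T : X →L[ℂ] X) (p : X × (X →L[ℂ] ℂ)) {w : ℂ → ℂ} (hw : Differentiable ℂ w)
    (hnc : ∃ z ∈ Om T, Fn T p z ≠ w z)
    {z : ℂ} (hz : z ∈ Om T) : ¬ ∀ᶠ v in 𝓝 z, w v - Fn T p v = 0 := by
  intro h
  obtain ⟨z1, hz1, hne⟩ := hnc
  have han : AnalyticOnNhd ℂ (fun v => w v - Fn T p v) (Om T) := by
    have : DifferentiableOn ℂ (fun v => w v - Fn T p v) (Om T) :=
      hw.differentiableOn.sub (Fn_diffOn T p)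
    exact this.analyticOnNhd (Om_open T)
  have := han.eqOn_zero_of_preconnected_of_eventuallyEq_zero (Om_preconn T) hz h hz1
  exact hne (sub_eq_zero.1 this).symm

/-- The key lemma when the spectrum is infinite. -/
theorem key_inf (T : X →L[ℂ] X) (hσ : (spectrum ℂ T).Infinite) (p : X × (X →L[ℂ] ℂ)) (w : ℂ → ℂ)
    (hw : Differentiable ℂ w) (hnc : ∃ z ∈ Om T, Fn T p z ≠ w z) (Z : Finset ℂ)
    (hZ : ∀ z, z ∈ Z ↔ z ∈ Om T ∧ Fn T p z = w z)
    {η : ℝ} (hη : 0 < η) {C : Set ℂ} (hC : IsCompact C) (hCΩ : C ⊆ Om T) :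
    ∃ z ∈ Om T, z ∉ C ∧ ‖w z - Fn T p z‖ ≤ η * ‖resolvent T z‖ := by
  classical
  by_contra hcon
  push Not at hcon
  have hfd : DifferentiableOn ℂ (fun v => w v - Fn T p v) (Om T) :=
    hw.differentiableOn.sub (Fn_diffOn T p)
  obtain ⟨n, G, hG, hG0, hfG⟩ := factor (Om_open T) Z (fun v => w v - Fn T p v) hfd
    (fun z => by rw [hZ z, sub_eq_zero, eq_comm (a := w z)])
    (fun z hz => not_loc T p hw hnc ((hZ z).1 hz).1)
  set N : ℕ := ∑ a ∈ Z, n a with hN
  set M : ℕ := N + 3 with hM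
  set e : ℕ := N + 2 with he
  obtain ⟨A, hA, hAc⟩ := hσ.exists_subset_card_eq M
  set m : ℂ → ℂ := fun z => ∏ a ∈ Z, (z - a) ^ n a with hm
  set Q : ℂ → ℂ := fun z => ∏ a ∈ A, (z - a) ^ e with hQ
  have hQ0 : ∀ z ∈ Om T, Q z ≠ 0 := by
    intro z hz
    refine Finset.prod_ne_zero_iff.2 fun a ha => pow_ne_zero _ (sub_ne_zero.2 fun h => ?_)
    exact hA ha (h ▸ Om_sub T hz)
  set H : ℂ → ℂ := fun z => if z ∈ Om T then (G z ^ M * Q z)⁻¹ else 0 with hH
  have hQd : Differentiable ℂ Q := by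
    intro z
    simp only [hQ]
    fun_prop
  have hHd : DifferentiableOn ℂ H (Om T) := by
    have h1 : DifferentiableOn ℂ (fun z => (G z ^ M * Q z)⁻¹) (Om T) := by
      refine DifferentiableOn.inv ((hG.pow M).mul hQd.differentiableOn) fun z hz => ?_
      exact mul_ne_zero (pow_ne_zero _ (hG0 z hz)) (hQ0 z hz)
    exact h1.congr fun z hz => by simp only [hH, if_pos hz]
  have hH0 : ∀ z, z ∉ Om T → H z = 0 := fun z hz => by simp only [hH, if_neg hz]
  -- the basic bound
  have hbound : ∀ z ∈ Om T, z ∉ C → ∀ t : ℝ, 1 ≤ ‖resolvent T z‖ * t →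
      ‖H z‖ ≤ ‖m z‖ ^ M * (t / η) ^ M / ‖Q z‖ := by
    intro z hz hzC t ht
    have h1 := hcon z hz hzC
    have hR := res_pos T (Om_sub T hz)
    have htpos : 0 < t := by
      by_contra h
      push Not at h
      have := mul_nonpos_of_nonneg_of_nonpos hR.le h
      linarith
    have h2 : w z - Fn T p z = m z * G z := hfG z hz
    have hmz : m z ≠ 0 := by
      intro h
      rw [h, zero_mul] at h2
      rw [h2, norm_zero] at h1
      have := mul_pos hη hR
      linarith
    have hmpos : 0 < ‖m z‖ := norm_pos_iff.2 hmz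
    have hGpos : 0 < ‖G z‖ := norm_pos_iff.2 (hG0 z hz)
    have hQpos : 0 < ‖Q z‖ := norm_pos_iff.2 (hQ0 z hz)
    rw [h2, norm_mul] at h1
    -- `1/|G| ≤ |m| t / η`
    have h3 : ‖G z‖⁻¹ ≤ ‖m z‖ * (t / η) := by
      rw [inv_le_iff_one_le_mul₀ hGpos]
      have h4 : η ≤ ‖m z‖ * ‖G z‖ * t := by
        calc η = η * 1 := (mul_one _).symm
          _ ≤ η * (‖resolvent T z‖ * t) := mul_le_mul_of_nonneg_left ht hη.le
          _ = η * ‖resolvent T z‖ * t := by ring
          _ ≤ ‖m z‖ * ‖G z‖ * t := mul_le_mul_of_nonneg_right h1.le htpos.le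
      have h5 : ‖m z‖ * (t / η) * ‖G z‖ = ‖m z‖ * ‖G z‖ * t / η := by ring
      rw [h5, le_div_iff₀ hη]
      linarith
    simp only [hH, if_pos hz]
    rw [norm_inv, norm_mul, norm_pow, mul_inv, ← inv_pow, div_eq_mul_inv]
    refine mul_le_mul_of_nonneg_right ?_ (by positivity)
    rw [← mul_pow]
    exact pow_le_pow_left₀ (by positivity) h3 M
  have hmc : Continuous m := by
    simp only [hm]
    fun_prop
  -- continuity
  have hcont : Continuous H := by
    rw [continuous_iff_continuousAt]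
    intro b
    by_cases hb : b ∈ Om T
    · exact (hHd.differentiableAt ((Om_open T).mem_nhds hb)).continuousAt
    by_cases hb2 : b ∈ closure (Om T)
    · -- boundary point
      have hbσ := bdry T hb2 hb
      rw [ContinuousAt, hH0 b hb, tendsto_zero_iff_norm_tendsto_zero]
      set Q' : ℂ → ℂ := fun z => ∏ a ∈ A.erase b, (z - a) ^ e with hQ'
      have hQ'b : Q' b ≠ 0 := by
        refine Finset.prod_ne_zero_iff.2 fun a ha => pow_ne_zero _ (sub_ne_zero.2 fun h => ?_)
        exact (Finset.ne_of_mem_erase ha) h.symm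
      have hQ'c : Continuous Q' := by
        simp only [hQ']
        fun_prop
      have hlim : Tendsto (fun z => ‖m z‖ ^ M * (1 / η) ^ M * ‖z - b‖ / ‖Q' z‖) (𝓝 b) (𝓝 0) := by
        have hc : ContinuousAt (fun z => ‖m z‖ ^ M * (1 / η) ^ M * ‖z - b‖ / ‖Q' z‖) b := by
          refine ContinuousAt.div ?_ hQ'c.norm.continuousAt (norm_ne_zero_iff.2 hQ'b)
          fun_prop
        have := hc.tendsto
        simpa using this
      refine squeeze_zero' (Eventually.of_forall fun z => norm_nonneg _) ?_ hlim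
      have hCb : Cᶜ ∈ 𝓝 b := hC.isClosed.isOpen_compl.mem_nhds fun h => hb (hCΩ h)
      filter_upwards [hCb, Metric.ball_mem_nhds b one_pos] with z hzC hz1
      by_cases hz : z ∈ Om T
      · have hzb : z ≠ b := fun h => hb (h ▸ hz)
        have hzb' : 0 < ‖z - b‖ := norm_pos_iff.2 (sub_ne_zero.2 hzb)
        have hz1' : ‖z - b‖ < 1 := by rwa [mem_ball, dist_eq_norm] at hz1
        refine (hbound z hz hzC _ (res_lower T (Om_sub T hz) hbσ)).trans ?_
        have hQz : 0 < ‖Q z‖ := norm_pos_iff.2 (hQ0 z hz)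
        have hQ'z : 0 < ‖Q' z‖ := by
          refine norm_pos_iff.2 (Finset.prod_ne_zero_iff.2 fun a ha => pow_ne_zero _
            (sub_ne_zero.2 fun h => ?_))
          exact hA (Finset.mem_of_mem_erase ha) (h ▸ Om_sub T hz)
        have hQQ' : ‖z - b‖ ^ e * ‖Q' z‖ ≤ ‖Q z‖ := by
          by_cases hbA : b ∈ A
          · have : Q z = (z - b) ^ e * Q' z := by
              simp only [hQ, hQ']
              rw [Finset.mul_prod_erase A (fun a => (z - a) ^ e) hbA]
            rw [this, norm_mul, norm_pow]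
          · have : Q z = Q' z := by
              simp only [hQ, hQ', Finset.erase_eq_of_notMem hbA]
            rw [this]
            calc ‖z - b‖ ^ e * ‖Q' z‖ ≤ 1 * ‖Q' z‖ :=
                  mul_le_mul_of_nonneg_right (pow_le_one₀ hzb'.le hz1'.le) hQ'z.le
              _ = ‖Q' z‖ := one_mul _
        calc ‖m z‖ ^ M * (‖z - b‖ / η) ^ M / ‖Q z‖
            ≤ ‖m z‖ ^ M * (‖z - b‖ / η) ^ M / (‖z - b‖ ^ e * ‖Q' z‖) := by
              gcongr
          _ = ‖m z‖ ^ M * (1 / η) ^ M * ‖z - b‖ / ‖Q' z‖ := by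
              have hMe : M = e + 1 := by omega
              rw [hMe, div_pow, div_pow, one_pow, pow_succ ‖z - b‖ e]
              field_simp
      · rw [hH0 z hz, norm_zero]
        positivity
    · -- exterior point
      have : H =ᶠ[𝓝 b] fun _ => 0 := by
        filter_upwards [isClosed_closure.isOpen_compl.mem_nhds hb2] with z hz
        exact hH0 z fun h => hz (subset_closure h)
      exact (continuousAt_const.congr this.symm)
  -- behaviour at infinity
  have hinf : Tendsto H (Bornology.cobounded ℂ) (𝓝 0) := by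
    obtain ⟨ρ, hρ0, hρ⟩ : ∃ ρ : ℝ, 0 < ρ ∧ (∀ a ∈ Z, ‖a‖ ≤ ρ) ∧ (∀ a ∈ A, ‖a‖ ≤ ρ) ∧
        ‖T‖ ≤ ρ ∧ (∀ a ∈ C, ‖a‖ < ρ) := by
      obtain ⟨r1, h1⟩ := (Z : Set ℂ).toFinite.isBounded.exists_norm_le
      obtain ⟨r2, h2⟩ := (A : Set ℂ).toFinite.isBounded.exists_norm_le
      obtain ⟨r3, h3⟩ := hC.isBounded.exists_norm_le
      refine ⟨max 1 (max r1 (max r2 (max ‖T‖ (r3 + 1)))), by positivity, ?_, ?_, ?_, ?_⟩
      · intro a ha
        exact (h1 a ha).trans (by simp)
      · intro a ha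
        exact (h2 a ha).trans (by simp)
      · simp
      · intro a ha
        have := h3 a ha
        have h4 : r3 + 1 ≤ max 1 (max r1 (max r2 (max ‖T‖ (r3 + 1)))) := by simp
        linarith
    obtain ⟨hρZ, hρA, hρT, hρC⟩ := hρ
    rw [tendsto_zero_iff_norm_tendsto_zero]
    have hlim : Tendsto (fun z : ℂ => (2 : ℝ) ^ (N * M + M + e * M) * (1 / η) ^ M / ‖z‖)
        (Bornology.cobounded ℂ) (𝓝 0) :=
      tendsto_const_nhds.div_atTop tendsto_norm_cobounded_atTop
    refine squeeze_zero' (Eventually.of_forall fun z => norm_nonneg _) ?_ hlim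
    filter_upwards [tendsto_norm_cobounded_atTop.eventually_ge_atTop (2 * ρ + 1)] with z hz
    have hz0 : 0 < ‖z‖ := by linarith
    have hz1 : 1 ≤ ‖z‖ := by linarith
    have hzΩ : z ∈ Om T := big_Om T (by simp only [mem_ofPred_eq]; linarith)
    have hzC : z ∉ C := fun h => by have := hρC z h; linarith
    refine (hbound z hzΩ hzC _ (res_lower_inf T (Om_sub T hzΩ))).trans ?_
    have hmz : ‖m z‖ ≤ (2 * ‖z‖) ^ N := by
      simp only [hm, norm_prod, norm_pow]
      rw [hN, ← Finset.prod_pow_eq_pow_sum]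
      refine Finset.prod_le_prod (fun a _ => by positivity) fun a ha => ?_
      refine pow_le_pow_left₀ (norm_nonneg _) ?_ _
      have := norm_sub_le z a
      have := hρZ a ha
      linarith
    have hQz : (‖z‖ / 2) ^ (e * M) ≤ ‖Q z‖ := by
      simp only [hQ, norm_prod, norm_pow]
      rw [pow_mul, ← hAc, ← Finset.prod_const]
      refine Finset.prod_le_prod (fun a _ => by positivity) fun a ha => ?_
      refine pow_le_pow_left₀ (by positivity) ?_ _
      have := norm_sub_norm_le z a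
      have := hρA a ha
      linarith
    have hT2 : ‖z‖ + ‖T‖ ≤ 2 * ‖z‖ := by linarith
    calc ‖m z‖ ^ M * ((‖z‖ + ‖T‖) / η) ^ M / ‖Q z‖
        ≤ ((2 * ‖z‖) ^ N) ^ M * ((2 * ‖z‖) / η) ^ M / (‖z‖ / 2) ^ (e * M) := by gcongr
      _ = (2 : ℝ) ^ (N * M + M + e * M) * (1 / η) ^ M / ‖z‖ ^ M := by
          have h1 : e * M = N * M + M + M := by rw [he]; ring
          rw [h1, ← pow_mul]
          simp only [div_pow, mul_pow, one_pow, pow_add]
          field_simp
      _ ≤ (2 : ℝ) ^ (N * M + M + e * M) * (1 / η) ^ M / ‖z‖ := by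
          have : ‖z‖ ≤ ‖z‖ ^ M := le_self_pow₀ hz1 (by omega)
          gcongr
  have hz0 := max_principle (Om_open T) (Om_preconn T) (big_Om T) hcont hHd hH0 hinf
    ((‖T‖ + 1 : ℝ) : ℂ)
  have hmem : ((‖T‖ + 1 : ℝ) : ℂ) ∈ Om T := big_Om T (base_mem T)
  simp only [hH, if_pos hmem] at hz0
  exact inv_ne_zero (mul_ne_zero (pow_ne_zero _ (hG0 _ hmem)) (hQ0 _ hmem)) hz0
end

end Pool.Agent.W768.RK
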