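import Pool.Agent.W768.RK.B

/-!
Generic rank-one perturbations, part C: the key lemma when the spectrum is finite and the operator is
not algebraic.
-/

set_option autoImplicit false
set_option linter.unusedSectionVars false

open Filter Topology Metric Set Asymptotics

namespace Pool.Agent.W768.RK

section
variable {X : Type*} [NormedAddCommGroup X] [NormedSpace ℂ X] [CompleteSpace X] [Nontrivial X]

theorem Om_fin (T : X →L[ℂ] X) (hσ : (spectrum ℂ T).Finite) : Om T = resolventSet ℂ T := by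
  refine Subset.antisymm (Om_sub T) ?_
  have hpre : IsPreconnected (resolventSet ℂ T) := by
    have h1 : resolventSet ℂ T = (spectrum ℂ T)ᶜ := by
      rw [spectrum, compl_compl]
    rw [h1]
    refine (hσ.countable.isConnected_compl_of_one_lt_rank ?_).isPreconnected
    rw [Complex.rank_real_complex]
    exact Cardinal.one_lt_two
  exact hpre.subset_connectedComponentIn (big_res T (base_mem T)) subset_rfl

/-- polynomial growth of the resolvent -/
theorem growth (T : X →L[ℂ] X) (hσ : (spectrum ℂ T).Finite) (p : X × (X →L[ℂ] ℂ)) (w : ℂ → ℂ)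
    (hw : Differentiable ℂ w) {η : ℝ} (hη : 0 < η) {C : Set ℂ} (hC : IsCompact C) (hCΩ : C ⊆ Om T)
    (hcon : ∀ z ∈ Om T, z ∉ C → η * ‖resolvent T z‖ < ‖w z - Fn T p z‖) {a : ℂ}
    (ha : a ∈ spectrum ℂ T) :
    ∃ (n : ℕ) (K : ℝ), ∀ᶠ z in 𝓝[≠] a, ‖(z - a) ^ n • resolvent T z‖ ≤ K := by
  set h : ℂ → ℂ := fun z => if z = a then 0 else (w z - Fn T p z)⁻¹ with hh
  have hnear : ∀ᶠ z in 𝓝 a, z ≠ a → z ∈ Om T ∧ z ∉ C := by
    have h1 : (spectrum ℂ T \ {a})ᶜ ∈ 𝓝 a := by
      refine (hσ.subset sdiff_subset).isClosed.isOpen_compl.mem_nhds ?_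
      simp
    have h2 : Cᶜ ∈ 𝓝 a := hC.isClosed.isOpen_compl.mem_nhds fun h => Om_sub T (hCΩ h) |> ha
    filter_upwards [h1, h2] with z hz1 hz2 hza
    refine ⟨?_, hz2⟩
    rw [Om_fin T hσ]
    by_contra h3
    exact hz1 ⟨h3, hza⟩
  have hbd : ∀ᶠ z in 𝓝 a, ‖h z‖ ≤ ‖z - a‖ / η := by
    filter_upwards [hnear] with z hz
    by_cases hza : z = a
    · simp [hh, hza]
    · obtain ⟨h1, h2⟩ := hz hza
      have h3 := hcon z h1 h2
      have h4 := res_lower T (Om_sub T h1) ha
      have h5 := res_pos T (Om_sub T h1)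
      have h6 : 0 < ‖w z - Fn T p z‖ := (mul_pos hη h5).trans h3
      simp only [hh, if_neg hza]
      rw [norm_inv, inv_le_iff_one_le_mul₀ h6, div_mul_eq_mul_div, le_div_iff₀ hη, one_mul]
      calc η = η * 1 := (mul_one _).symm
        _ ≤ η * (‖resolvent T z‖ * ‖z - a‖) := mul_le_mul_of_nonneg_left h4 hη.le
        _ = ‖z - a‖ * (η * ‖resolvent T z‖) := by ring
        _ ≤ ‖z - a‖ * ‖w z - Fn T p z‖ := mul_le_mul_of_nonneg_left h3.le (norm_nonneg _)
  have hne0 : ∀ᶠ z in 𝓝 a, z ≠ a → w z - Fn T p z ≠ 0 := by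
    filter_upwards [hnear] with z hz hza
    obtain ⟨h1, h2⟩ := hz hza
    have h3 := hcon z h1 h2
    have h5 := res_pos T (Om_sub T h1)
    exact norm_pos_iff.1 ((mul_pos hη h5).trans h3)
  have hcont : ContinuousAt h a := by
    have h0 : h a = 0 := by simp [hh]
    rw [ContinuousAt, h0, tendsto_zero_iff_norm_tendsto_zero]
    refine squeeze_zero' (Eventually.of_forall fun z => norm_nonneg _) hbd ?_
    have : ContinuousAt (fun z : ℂ => ‖z - a‖ / η) a := by fun_prop
    have := this.tendsto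
    simpa using this
  have hdiff : ∀ᶠ z in 𝓝[≠] a, DifferentiableAt ℂ h z := by
    rw [eventually_nhdsWithin_iff]
    filter_upwards [hnear, hne0] with z hz hz0 hza
    have hza' : z ≠ a := hza
    have h1 : h =ᶠ[𝓝 z] fun v => (w v - Fn T p v)⁻¹ := by
      filter_upwards [isOpen_ne.mem_nhds hza'] with v hv
      simp only [hh, if_neg hv]
    exact (((hw z).sub (Fn_diff T p (Om_sub T (hz hza').1))).inv (hz0 hza')).congr_of_eventuallyEq h1
  have han : AnalyticAt ℂ h a :=
    Complex.analyticAt_of_differentiable_on_punctured_nhds_of_continuousAt hdiff hcont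
  have hnl : ¬ ∀ᶠ z in 𝓝 a, h z = 0 := by
    intro h1
    have h2 : ∀ᶠ z in 𝓝[≠] a, h z = 0 ∧ (z ≠ a → w z - Fn T p z ≠ 0) ∧ z ≠ a :=
      ((h1.and hne0).filter_mono nhdsWithin_le_nhds).and self_mem_nhdsWithin |>.mono
        fun z hz => ⟨hz.1.1, hz.1.2, hz.2⟩
    obtain ⟨z, hz1, hz2, hz3⟩ := h2.exists
    simp only [hh, if_neg hz3] at hz1
    exact inv_ne_zero (hz2 hz3) hz1
  obtain ⟨n, g, hg, hga, hhg⟩ := (AnalyticAt.exists_eventuallyEq_pow_smul_nonzero_iff han).2 hnl
  have hgp : 0 < ‖g a‖ := norm_pos_iff.2 hga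
  have hglow : ∀ᶠ z in 𝓝 a, ‖g a‖ / 2 < ‖g z‖ :=
    hg.continuousAt.norm.eventually (lt_mem_nhds (by linarith))
  refine ⟨n, 2 / (‖g a‖ * η), ?_⟩
  rw [eventually_nhdsWithin_iff]
  filter_upwards [hnear, hne0, hhg, hglow] with z hz hz0 hz1 hz2 hza
  have hza' : z ≠ a := hza
  obtain ⟨h1, h2⟩ := hz hza'
  have h3 := hcon z h1 h2
  simp only [hh, if_neg hza', smul_eq_mul] at hz1
  have h4 : ‖w z - Fn T p z‖⁻¹ = ‖(z - a) ^ n‖ * ‖g z‖ := by
    rw [← norm_inv, hz1, norm_mul]
  have h6 : 0 < ‖w z - Fn T p z‖ := norm_pos_iff.2 (hz0 hza')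
  rw [norm_smul]
  have h7 : ‖resolvent T z‖ ≤ ‖w z - Fn T p z‖ / η := by
    rw [le_div_iff₀ hη]
    linarith
  have h8 : 1 = ‖(z - a) ^ n‖ * ‖g z‖ * ‖w z - Fn T p z‖ := by
    rw [← h4, inv_mul_cancel₀ h6.ne']
  have h9 : ‖(z - a) ^ n‖ * ‖w z - Fn T p z‖ ≤ 2 / ‖g a‖ := by
    rw [le_div_iff₀ hgp]
    have h10 : ‖(z - a) ^ n‖ * ‖w z - Fn T p z‖ * (‖g a‖ / 2) ≤
        ‖(z - a) ^ n‖ * ‖w z - Fn T p z‖ * ‖g z‖ :=
      mul_le_mul_of_nonneg_left hz2.le (by positivity)
    have h11 : ‖(z - a) ^ n‖ * ‖w z - Fn T p z‖ * ‖g z‖ = 1 := by rw [h8]; ring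
    linarith
  calc ‖(z - a) ^ n‖ * ‖resolvent T z‖ ≤ ‖(z - a) ^ n‖ * (‖w z - Fn T p z‖ / η) :=
        mul_le_mul_of_nonneg_left h7 (norm_nonneg _)
    _ = ‖(z - a) ^ n‖ * ‖w z - Fn T p z‖ / η := by ring
    _ ≤ 2 / ‖g a‖ / η := by gcongr
    _ = 2 / (‖g a‖ * η) := by rw [div_div]

theorem pow_res_bdd (T : X →L[ℂ] X) (a : ℂ) (hev : ∀ᶠ z in 𝓝[≠] a, z ∈ resolventSet ℂ T) (n : ℕ) :
    (fun z => (T - algebraMap ℂ (X →L[ℂ] X) a) ^ n * resolvent T z - (z - a) ^ n • resolvent T z)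
      =O[𝓝[≠] a] (fun _ => (1 : ℝ)) := by
  induction n with
  | zero =>
    simp only [pow_zero, one_mul, one_smul, sub_self]
    exact isBigO_zero _ _
  | succ n ih =>
    set B := T - algebraMap ℂ (X →L[ℂ] X) a with hB
    have h1 : (fun z => B ^ (n + 1) * resolvent T z - (z - a) ^ (n + 1) • resolvent T z)
        =ᶠ[𝓝[≠] a] fun z => B * (B ^ n * resolvent T z - (z - a) ^ n • resolvent T z) -
          (z - a) ^ n • (1 : X →L[ℂ] X) := by
      filter_upwards [hev] with z hz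
      have h2 : B * resolvent T z = (z - a) • resolvent T z - 1 := by
        have h3 := mul_res T hz
        have h4 : B = (z - a) • (1 : X →L[ℂ] X) - (algebraMap ℂ (X →L[ℂ] X) z - T) := by
          rw [hB, ← Algebra.algebraMap_eq_smul_one, map_sub]
          abel
        rw [h4, sub_mul, h3, smul_mul_assoc, one_mul]
      rw [pow_succ', mul_assoc, mul_sub, mul_smul_comm, h2, smul_sub, smul_smul, pow_succ]
      abel
    refine IsBigO.congr' ?_ h1.symm EventuallyEq.rfl
    refine IsBigO.sub ?_ ?_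
    · exact (isBigO_const_const B one_ne_zero _).mul ih |>.congr_right fun _ => by simp
    · have hc : ContinuousAt (fun z : ℂ => (z - a) ^ n • (1 : X →L[ℂ] X)) a := by fun_prop
      exact (hc.tendsto.isBigO_one ℝ).mono nhdsWithin_le_nhds

/-- an operator with finite spectrum and resolvent of polynomial growth is algebraic -/
theorem alg_of_growth (T : X →L[ℂ] X) (hσ : (spectrum ℂ T).Finite)
    (hg : ∀ a ∈ spectrum ℂ T, ∃ (n : ℕ) (K : ℝ), ∀ᶠ z in 𝓝[≠] a, ‖(z - a) ^ n • resolvent T z‖ ≤ K) :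
    ∃ P : Polynomial ℂ, P ≠ 0 ∧ Polynomial.aeval T P = 0 := by
  classical
  choose! n K hnK using hg
  set S : Finset ℂ := hσ.toFinset with hS
  have hSm : ∀ a, a ∈ S ↔ a ∈ spectrum ℂ T := fun a => hσ.mem_toFinset
  set P : Polynomial ℂ := ∏ a ∈ S, (Polynomial.X - Polynomial.C a) ^ n a with hP
  have hPm : P.Monic := Polynomial.monic_prod_of_monic _ _ fun a _ => (Polynomial.monic_X_sub_C a).pow _
  refine ⟨P, hPm.ne_zero, ?_⟩
  set L : X →L[ℂ] X := Polynomial.aeval T P with hL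
  have hev : ∀ a ∈ spectrum ℂ T, ∀ᶠ z in 𝓝[≠] a, z ∈ resolventSet ℂ T := by
    intro a ha
    have h1 : (spectrum ℂ T \ {a})ᶜ ∈ 𝓝 a := by
      refine (hσ.subset sdiff_subset).isClosed.isOpen_compl.mem_nhds ?_
      simp
    rw [eventually_nhdsWithin_iff]
    filter_upwards [h1] with z hz hza
    by_contra h3
    exact hz ⟨h3, hza⟩
  -- `L R(z)` is bounded near the spectrum
  have hLb : ∀ a ∈ spectrum ℂ T, (fun z => L * resolvent T z) =O[𝓝[≠] a] (fun _ => (1 : ℝ)) := by
    intro a ha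
    have h1 : L = Polynomial.aeval T (∏ b ∈ S.erase a, (Polynomial.X - Polynomial.C b) ^ n b) *
        (T - algebraMap ℂ (X →L[ℂ] X) a) ^ n a := by
      rw [hL, hP, ← Finset.prod_erase_mul S _ ((hSm a).2 ha), map_mul, map_pow, map_sub,
        Polynomial.aeval_X, Polynomial.aeval_C]
    have h2 : (fun z => (T - algebraMap ℂ (X →L[ℂ] X) a) ^ n a * resolvent T z) =O[𝓝[≠] a]
        (fun _ => (1 : ℝ)) := by
      have h3 := pow_res_bdd T a (hev a ha) (n a)
      have h4 : (fun z => (z - a) ^ n a • resolvent T z) =O[𝓝[≠] a] (fun _ => (1 : ℝ)) := by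
        refine IsBigO.of_bound (K a) ?_
        filter_upwards [hnK a ha] with z hz
        simpa using hz
      exact (h3.add h4).congr_left fun z => by abel
    rw [h1]
    simp only [mul_assoc]
    exact (isBigO_const_const _ one_ne_zero _).mul h2 |>.congr_right fun _ => by simp
  -- the scalar functions
  have hv : ∀ (y : X) (ψ : X →L[ℂ] ℂ), ∀ z ∈ resolventSet ℂ T, ψ ((L * resolvent T z) y) = 0 := by
    intro y ψ z0 hz0
    set v : ℂ → ℂ := fun z => ψ ((L * resolvent T z) y) with hvdef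
    set q : ℂ → ℂ := fun z => ∏ a ∈ S, (z - a) with hq
    set H : ℂ → ℂ := fun z => if z ∈ resolventSet ℂ T then v z ^ (S.card + 1) * q z else 0 with hH
    have hvd : ∀ z ∈ resolventSet ℂ T, DifferentiableAt ℂ v z := by
      intro z hz
      have h1 : DifferentiableAt ℂ (fun z => (L * resolvent T z) y) z :=
        ((differentiableAt_const L).mul (res_diff T hz)).clm_apply (differentiableAt_const _)
      exact ψ.differentiableAt.comp z h1
    have hqc : Differentiable ℂ q := by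
      intro z
      simp only [hq]
      fun_prop
    have hHd : DifferentiableOn ℂ H (Om T) := by
      rw [Om_fin T hσ]
      have h1 : DifferentiableOn ℂ (fun z => v z ^ (S.card + 1) * q z) (resolventSet ℂ T) :=
        fun z hz => (((hvd z hz).pow _).mul (hqc z)).differentiableWithinAt
      exact h1.congr fun z hz => by simp only [hH, if_pos hz]
    have hH0 : ∀ z, z ∉ Om T → H z = 0 := by
      intro z hz
      rw [Om_fin T hσ] at hz
      simp only [hH, if_neg hz]
    have hvb : ∀ z, ‖v z‖ ≤ ‖ψ‖ * ‖y‖ * ‖L * resolvent T z‖ := by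
      intro z
      calc ‖v z‖ ≤ ‖ψ‖ * ‖(L * resolvent T z) y‖ := ψ.le_opNorm _
        _ ≤ ‖ψ‖ * (‖L * resolvent T z‖ * ‖y‖) :=
            mul_le_mul_of_nonneg_left ((L * resolvent T z).le_opNorm _) (norm_nonneg _)
        _ = _ := by ring
    have hcont : Continuous H := by
      rw [continuous_iff_continuousAt]
      intro b
      by_cases hb : b ∈ Om T
      · exact (hHd.differentiableAt ((Om_open T).mem_nhds hb)).continuousAt
      have hbσ : b ∈ spectrum ℂ T := by
        rw [Om_fin T hσ] at hb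
        exact hb
      rw [← continuousWithinAt_compl_self, ContinuousWithinAt, hH0 b hb]
      have h1 : v =O[𝓝[≠] b] (fun _ => (1 : ℝ)) := by
        have h2 : v =O[𝓝[≠] b] (fun z => L * resolvent T z) :=
          IsBigO.of_bound (‖ψ‖ * ‖y‖) (Eventually.of_forall hvb)
        exact h2.trans (hLb b hbσ)
      have h3 : (fun z => v z ^ (S.card + 1)) =O[𝓝[≠] b] (fun _ => (1 : ℝ)) := by
        have := h1.pow (S.card + 1)
        simpa using this
      have h4 : Tendsto q (𝓝[≠] b) (𝓝 0) := by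
        have h5 : q b = 0 := Finset.prod_eq_zero ((hSm b).2 hbσ) (sub_self b)
        have := (hqc.continuous.tendsto b).mono_left (nhdsWithin_le_nhds (s := {b}ᶜ))
        rwa [h5] at this
      have h6 : Tendsto (fun z => v z ^ (S.card + 1) * q z) (𝓝[≠] b) (𝓝 0) := by
        have h7 : (fun z => v z ^ (S.card + 1) * q z) =o[𝓝[≠] b] (fun _ => (1 : ℝ)) := by
          have := h3.mul_isLittleO ((isLittleO_one_iff ℝ).2 h4)
          simpa using this
        exact (isLittleO_one_iff ℝ).1 h7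
      refine h6.congr' ?_
      filter_upwards [hev b hbσ] with z hz
      simp only [hH, if_pos hz]
    have hinf : Tendsto H (Bornology.cobounded ℂ) (𝓝 0) := by
      have h1 : v =O[Bornology.cobounded ℂ] (fun z : ℂ => z⁻¹) := by
        have h2 : v =O[Bornology.cobounded ℂ] (resolvent T) := by
          refine IsBigO.of_bound (‖ψ‖ * ‖y‖ * ‖L‖) (Eventually.of_forall fun z => (hvb z).trans ?_)
          calc ‖ψ‖ * ‖y‖ * ‖L * resolvent T z‖ ≤ ‖ψ‖ * ‖y‖ * (‖L‖ * ‖resolvent T z‖) :=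
                mul_le_mul_of_nonneg_left (norm_mul_le _ _) (by positivity)
            _ = _ := by ring
        exact h2.trans (spectrum.resolvent_isBigO_inv T)
      have h3 : q =O[Bornology.cobounded ℂ] (fun z : ℂ => z ^ S.card) := by
        have h4 : (fun z => ∏ a ∈ S, (z - a)) =O[Bornology.cobounded ℂ]
            (fun z : ℂ => ∏ _a ∈ S, z) := by
          refine IsBigO.finsetProd fun a _ => ?_
          refine (isBigO_refl _ _).sub ?_
          refine IsBigO.of_bound ‖a‖ ?_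
          filter_upwards [tendsto_norm_cobounded_atTop.eventually_ge_atTop 1] with z hz
          exact le_mul_of_one_le_right (norm_nonneg _) hz
        simpa using h4
      have h5 : (fun z => v z ^ (S.card + 1) * q z) =O[Bornology.cobounded ℂ]
          (fun z : ℂ => z⁻¹) := by
        refine ((h1.pow (S.card + 1)).mul h3).congr' EventuallyEq.rfl ?_
        filter_upwards [tendsto_norm_cobounded_atTop.eventually_ge_atTop 1] with z hz
        have hz0 : z ≠ 0 := norm_pos_iff.1 (by linarith)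
        rw [pow_succ, inv_pow]
        field_simp
      have h6 : Tendsto (fun z => v z ^ (S.card + 1) * q z) (Bornology.cobounded ℂ) (𝓝 0) :=
        h5.trans_tendsto tendsto_inv₀_cobounded
      refine h6.congr' ?_
      filter_upwards [tendsto_norm_cobounded_atTop.eventually_gt_atTop ‖T‖] with z hz
      have : z ∈ resolventSet ℂ T := big_res T hz
      simp only [hH, if_pos this]
    have hz1 := max_principle (Om_open T) (Om_preconn T) (big_Om T) hcont hHd hH0 hinf z0
    simp only [hH, if_pos hz0] at hz1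
    have hq0 : q z0 ≠ 0 := by
      refine Finset.prod_ne_zero_iff.2 fun a ha => sub_ne_zero.2 fun h => ?_
      exact (hSm a).1 ha (h ▸ hz0)
    exact pow_eq_zero_iff (Nat.succ_ne_zero _) |>.1 ((mul_eq_zero.1 hz1).resolve_right hq0)
  -- conclusion
  have hz : ((‖T‖ + 1 : ℝ) : ℂ) ∈ resolventSet ℂ T := big_res T (base_mem T)
  have h1 : L * resolvent T ((‖T‖ + 1 : ℝ) : ℂ) = 0 := by
    ext1 y
    rw [zero_apply]
    by_contra hne
    obtain ⟨ψ, hψ⟩ := SeparatingDual.exists_ne_zero (R := ℂ) hne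
    exact hψ (hv y ψ _ hz)
  calc L = L * (resolvent T ((‖T‖ + 1 : ℝ) : ℂ) *
        (algebraMap ℂ (X →L[ℂ] X) ((‖T‖ + 1 : ℝ) : ℂ) - T)) := by rw [res_mul T hz, mul_one]
    _ = 0 := by rw [← mul_assoc, h1, zero_mul]

/-- The key lemma. -/
theorem key (T : X →L[ℂ] X) (hna : ∀ P : Polynomial ℂ, P ≠ 0 → Polynomial.aeval T P ≠ 0)
    (p : X × (X →L[ℂ] ℂ)) (w : ℂ → ℂ) (hw : Differentiable ℂ w)
    (hnc : ∃ z ∈ Om T, Fn T p z ≠ w z) (Z : Finset ℂ)
    (hZ : ∀ z, z ∈ Z ↔ z ∈ Om T ∧ Fn T p z = w z) {η : ℝ} (hη : 0 < η) {C : Set ℂ} (hC : IsCompact C)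
    (hCΩ : C ⊆ Om T) : ∃ z ∈ Om T, z ∉ C ∧ ‖w z - Fn T p z‖ ≤ η * ‖resolvent T z‖ := by
  by_cases hσ : (spectrum ℂ T).Finite
  · by_contra hcon
    push Not at hcon
    obtain ⟨P, hP0, hP⟩ := alg_of_growth T hσ fun a ha => growth T hσ p w hw hη hC hCΩ hcon ha
    exact hna P hP0 hP
  · exact key_inf T hσ p w hw hnc Z hZ hη hC hCΩ
end

end Pool.Agent.W768.RK
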