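import Pool.Agent.W768.RK.C

/-!
Generic rank-one perturbations, part D: for a non-algebraic operator `T` and a number `w`, the equation
`φ((z - T)⁻¹ x) = w` has infinitely many solutions `z` for all `(x, φ)` in a residual set.
-/

set_option autoImplicit false
set_option linter.unusedSectionVars false

open Filter Topology Metric Set

namespace Pool.Agent.W768.RK

section
variable {X : Type*} [NormedAddCommGroup X] [NormedSpace ℂ X] [CompleteSpace X] [Nontrivial X]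

/-- at least `k` solutions -/
def Good (T : X →L[ℂ] X) (w : ℂ → ℂ) (k : ℕ) : Set (X × (X →L[ℂ] ℂ)) :=
  {p | (∃ z ∈ Om T, Fn T p z ≠ w z) ∧
    ∃ s : Finset ℂ, s.card = k ∧ ∀ z ∈ s, z ∈ Om T ∧ Fn T p z = w z}

theorem Fn_cont (T : X →L[ℂ] X) (z : ℂ) : Continuous fun p : X × (X →L[ℂ] ℂ) => Fn T p z := by
  unfold Fn
  fun_prop

theorem Fn_sub_le (T : X →L[ℂ] X) (p q : X × (X →L[ℂ] ℂ)) (z : ℂ) (h1 : dist p q ≤ 1) :
    ‖Fn T p z - Fn T q z‖ ≤ dist p q * (‖resolvent T z‖ * (‖q.1‖ + 1 + ‖q.2‖)) := by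
  have hd : ‖p.1 - q.1‖ ≤ dist p q := by
    rw [Prod.dist_eq, ← dist_eq_norm]; exact le_max_left _ _
  have hd2 : ‖p.2 - q.2‖ ≤ dist p q := by
    rw [Prod.dist_eq, ← dist_eq_norm]; exact le_max_right _ _
  have e : Fn T p z - Fn T q z =
      (p.2 - q.2) (resolvent T z p.1) + q.2 (resolvent T z (p.1 - q.1)) := by
    unfold Fn
    simp only [sub_apply, map_sub]
    ring
  have hp1 : ‖p.1‖ ≤ ‖q.1‖ + 1 := by
    have : p.1 = q.1 + (p.1 - q.1) := by abel
    calc ‖p.1‖ = ‖q.1 + (p.1 - q.1)‖ := by rw [← this]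
      _ ≤ ‖q.1‖ + ‖p.1 - q.1‖ := norm_add_le _ _
      _ ≤ ‖q.1‖ + 1 := by linarith
  have hdn : 0 ≤ dist p q := dist_nonneg
  rw [e]
  calc ‖(p.2 - q.2) (resolvent T z p.1) + q.2 (resolvent T z (p.1 - q.1))‖
      ≤ ‖(p.2 - q.2) (resolvent T z p.1)‖ + ‖q.2 (resolvent T z (p.1 - q.1))‖ := norm_add_le _ _
    _ ≤ dist p q * (‖resolvent T z‖ * (‖q.1‖ + 1)) + ‖q.2‖ * (‖resolvent T z‖ * dist p q) := by
        refine add_le_add ?_ ?_
        · refine (ContinuousLinearMap.le_opNorm _ _).trans (mul_le_mul hd2 ?_ (norm_nonneg _) hdn)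
          exact (ContinuousLinearMap.le_opNorm _ _).trans
            (mul_le_mul_of_nonneg_left hp1 (norm_nonneg _))
        · refine (ContinuousLinearMap.le_opNorm _ _).trans
            (mul_le_mul_of_nonneg_left ?_ (norm_nonneg _))
          exact (ContinuousLinearMap.le_opNorm _ _).trans
            (mul_le_mul_of_nonneg_left hd (norm_nonneg _))
    _ = _ := by ring

/-- Hurwitz: a solution persists -/
theorem hurwitz (T : X →L[ℂ] X) (q : X × (X →L[ℂ] ℂ)) (w : ℂ → ℂ) (hw : Differentiable ℂ w)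
    (hnc : ∃ z ∈ Om T, Fn T q z ≠ w z)
    {z0 : ℂ} (hz0 : z0 ∈ Om T) (hF : Fn T q z0 = w z0) {ρ : ℝ} (hρ : 0 < ρ)
    (hρΩ : closedBall z0 ρ ⊆ Om T) :
    ∀ᶠ p in 𝓝 q, ∃ z ∈ closedBall z0 ρ, Fn T p z = w z := by
  have hnl := not_loc T q hw hnc hz0
  have han : AnalyticAt ℂ (fun v => w v - Fn T q v) z0 := by
    have : DifferentiableOn ℂ (fun v => w v - Fn T q v) (Om T) :=
      hw.differentiableOn.sub (Fn_diffOn T q)
    exact this.analyticAt ((Om_open T).mem_nhds hz0)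
  have hne : ∀ᶠ z in 𝓝[≠] z0, w z - Fn T q z ≠ 0 :=
    han.eventually_eq_zero_or_eventually_ne_zero.resolve_left hnl
  rw [eventually_nhdsWithin_iff, Metric.eventually_nhds_iff] at hne
  obtain ⟨r0, hr0, hr0'⟩ := hne
  set r : ℝ := min (r0 / 2) ρ with hr
  have hrpos : 0 < r := lt_min (by linarith) hρ
  have hrρ : r ≤ ρ := min_le_right _ _
  have hrr0 : r < r0 := lt_of_le_of_lt (min_le_left _ _) (by linarith)
  have hsub : closedBall z0 r ⊆ Om T := (closedBall_subset_closedBall hrρ).trans hρΩ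
  -- lower bound on the sphere
  have hsph : ∀ z ∈ sphere z0 r, w z - Fn T q z ≠ 0 := by
    intro z hz
    have hz' : dist z z0 = r := hz
    refine hr0' (by rw [hz']; exact hrr0) fun h => ?_
    rw [h, dist_self] at hz'
    linarith
  have hcomp : IsCompact (sphere z0 r) := isCompact_sphere z0 r
  have hcont : ContinuousOn (fun z => ‖w z - Fn T q z‖) (sphere z0 r) := by
    refine ContinuousOn.norm ?_
    exact (hw.continuous.continuousOn.sub ((Fn_diffOn T q).continuousOn.mono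
      (sphere_subset_closedBall.trans hsub)))
  have hne1 : (sphere z0 r).Nonempty := NormedSpace.sphere_nonempty.2 hrpos.le
  obtain ⟨z1, hz1, hmin⟩ := hcomp.exists_isMinOn hne1 hcont
  set ε : ℝ := ‖w z1 - Fn T q z1‖ with hε
  have hεpos : 0 < ε := norm_pos_iff.2 (hsph z1 hz1)
  have hmin' : ∀ z ∈ sphere z0 r, ε ≤ ‖w z - Fn T q z‖ := fun z hz => hmin hz
  -- bound for the resolvent
  obtain ⟨B, hB⟩ : ∃ B, ∀ z ∈ closedBall z0 r, ‖resolvent T z‖ ≤ B := by
    have hc : ContinuousOn (fun z => ‖resolvent T z‖) (closedBall z0 r) := fun z hz =>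
      (res_diff T (Om_sub T (hsub hz))).continuousAt.continuousWithinAt.norm
    obtain ⟨z2, -, hz2⟩ := (isCompact_closedBall z0 r).exists_isMaxOn
      ⟨z0, mem_closedBall_self hrpos.le⟩ hc
    exact ⟨_, fun z hz => hz2 hz⟩
  have hB0 : 0 ≤ B := (norm_nonneg _).trans (hB z0 (mem_closedBall_self hrpos.le))
  set D : ℝ := B * (‖q.1‖ + 1 + ‖q.2‖) with hD
  have hD0 : 0 ≤ D := by positivity
  rw [Metric.eventually_nhds_iff]
  refine ⟨min 1 (ε / (4 * (D + 1))), lt_min one_pos (by positivity), fun p hp => ?_⟩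
  have hp1 : dist p q ≤ 1 := (hp.trans_le (min_le_left _ _)).le
  have hp2 : dist p q < ε / (4 * (D + 1)) := hp.trans_le (min_le_right _ _)
  have hclose : ∀ z ∈ closedBall z0 r, ‖Fn T p z - Fn T q z‖ ≤ ε / 4 := by
    intro z hz
    refine (Fn_sub_le T p q z hp1).trans ?_
    calc dist p q * (‖resolvent T z‖ * (‖q.1‖ + 1 + ‖q.2‖)) ≤ dist p q * (D + 1) := by
          refine mul_le_mul_of_nonneg_left ?_ dist_nonneg
          have : ‖resolvent T z‖ * (‖q.1‖ + 1 + ‖q.2‖) ≤ D :=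
            mul_le_mul_of_nonneg_right (hB z hz) (by positivity)
          linarith
      _ ≤ ε / (4 * (D + 1)) * (D + 1) := mul_le_mul_of_nonneg_right hp2.le (by positivity)
      _ = ε / 4 := by field_simp
  by_contra hcon
  push Not at hcon
  have hcon' : ∀ z ∈ closedBall z0 r, w z - Fn T p z ≠ 0 := fun z hz h =>
    hcon z (closedBall_subset_closedBall hrρ hz) (sub_eq_zero.1 h).symm
  -- maximum principle for the inverse
  have hdc : DiffContOnCl ℂ (fun z => (w z - Fn T p z)⁻¹) (ball z0 r) := by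
    have h1 : DifferentiableOn ℂ (fun z => (w z - Fn T p z)⁻¹) (closedBall z0 r) := fun z hz =>
      (((hw z).sub (Fn_diff T p (Om_sub T (hsub hz)))).inv (hcon' z hz)).differentiableWithinAt
    exact h1.diffContOnCl_ball subset_rfl
  have hfr : ∀ z ∈ frontier (ball z0 r), ‖(w z - Fn T p z)⁻¹‖ ≤ 2 / ε := by
    intro z hz
    rw [frontier_ball z0 hrpos.ne'] at hz
    have h1 := hmin' z hz
    have h2 := hclose z (sphere_subset_closedBall hz)
    have h3 : ε / 2 ≤ ‖w z - Fn T p z‖ := by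
      have h4 : w z - Fn T q z = (w z - Fn T p z) + (Fn T p z - Fn T q z) := by ring
      have h5 := norm_add_le (w z - Fn T p z) (Fn T p z - Fn T q z)
      rw [← h4] at h5
      linarith
    rw [norm_inv, inv_le_comm₀ (by linarith) (by positivity), inv_div]
    exact h3
  have h1 := Complex.norm_le_of_forall_mem_frontier_norm_le isBounded_ball hdc hfr
    (subset_closure (mem_ball_self hrpos))
  have h2 := hclose z0 (mem_closedBall_self hrpos.le)
  rw [hF] at h2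
  have h3 : 0 < ‖w z0 - Fn T p z0‖ := norm_pos_iff.2 (hcon' z0 (mem_closedBall_self hrpos.le))
  rw [norm_inv, inv_le_comm₀ h3 (by positivity), inv_div] at h1
  rw [norm_sub_rev] at h2
  linarith

theorem nonconst_open (T : X →L[ℂ] X) (w : ℂ → ℂ) :
    IsOpen {p : X × (X →L[ℂ] ℂ) | ∃ z ∈ Om T, Fn T p z ≠ w z} := by
  have : {p : X × (X →L[ℂ] ℂ) | ∃ z ∈ Om T, Fn T p z ≠ w z} =
      ⋃ z ∈ Om T, {p : X × (X →L[ℂ] ℂ) | Fn T p z ≠ w z} := by
    ext p; simp
  rw [this]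
  exact isOpen_biUnion fun z _ => isOpen_ne_fun (Fn_cont T z) continuous_const

/-- small separated discs -/
theorem sep_radius {Ω : Set ℂ} (ho : IsOpen Ω) (s : Finset ℂ) (hs : ∀ z ∈ s, z ∈ Ω) :
    ∃ ρ : ℝ, 0 < ρ ∧ (∀ z ∈ s, closedBall z ρ ⊆ Ω) ∧
      ∀ z ∈ s, ∀ z' ∈ s, z ≠ z' → 2 * ρ < dist z z' := by
  have h1 : ∀ᶠ ρ in 𝓝[>] (0 : ℝ), ∀ z ∈ s, closedBall z ρ ⊆ Ω := by
    refine (Filter.eventually_all_finset s).2 fun z hz => ?_
    obtain ⟨ε, hε, hb⟩ := Metric.nhds_basis_closedBall.mem_iff.1 (ho.mem_nhds (hs z hz))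
    filter_upwards [Ioc_mem_nhdsGT hε] with ρ hρ
    exact (closedBall_subset_closedBall hρ.2).trans hb
  have h2 : ∀ᶠ ρ in 𝓝[>] (0 : ℝ), ∀ z ∈ s, ∀ z' ∈ s, z ≠ z' → 2 * ρ < dist z z' := by
    refine (Filter.eventually_all_finset s).2 fun z hz => ?_
    refine (Filter.eventually_all_finset s).2 fun z' hz' => ?_
    by_cases hzz : z = z'
    · exact Eventually.of_forall fun ρ h => absurd hzz h
    · have hd : 0 < dist z z' / 2 := by have := dist_pos.2 hzz; linarith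
      filter_upwards [Ioo_mem_nhdsGT hd] with ρ hρ _
      linarith [hρ.2]
  obtain ⟨ρ, hρ1, hρ2, hρ3⟩ := (h1.and (h2.and self_mem_nhdsWithin)).exists
  exact ⟨ρ, hρ3, hρ1, hρ2⟩

/-- persistence of all solutions of a finite set, in small disjoint discs -/
theorem persist (T : X →L[ℂ] X) (q : X × (X →L[ℂ] ℂ)) (w : ℂ → ℂ) (hw : Differentiable ℂ w)
    (hnc : ∃ z ∈ Om T, Fn T q z ≠ w z)
    (s : Finset ℂ) (hs : ∀ z ∈ s, z ∈ Om T ∧ Fn T q z = w z) :
    ∃ C : Set ℂ, IsCompact C ∧ C ⊆ Om T ∧ ∀ᶠ p in 𝓝 q, (∃ z ∈ Om T, Fn T p z ≠ w z) ∧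
      ∃ s' : Finset ℂ, s'.card = s.card ∧ ∀ z ∈ s', z ∈ C ∧ Fn T p z = w z := by
  classical
  obtain ⟨ρ, hρ, hρΩ, hsep⟩ := sep_radius (Om_open T) s fun z hz => (hs z hz).1
  refine ⟨⋃ z ∈ s, closedBall z ρ, s.isCompact_biUnion fun z _ => isCompact_closedBall z ρ, ?_, ?_⟩
  · exact iUnion₂_subset fun z hz => hρΩ z hz
  have h1 : ∀ᶠ p in 𝓝 q, ∀ z ∈ s, ∃ z' ∈ closedBall z ρ, Fn T p z' = w z' :=
    (Filter.eventually_all_finset s).2 fun z hz =>
      hurwitz T q w hw hnc (hs z hz).1 (hs z hz).2 hρ (hρΩ z hz)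
  have h2 : ∀ᶠ p in 𝓝 q, ∃ z ∈ Om T, Fn T p z ≠ w z := (nonconst_open T w).mem_nhds hnc
  filter_upwards [h1, h2] with p hp1 hp2
  refine ⟨hp2, ?_⟩
  choose! g hg hgF using hp1
  refine ⟨s.image g, ?_, ?_⟩
  · refine Finset.card_image_of_injOn fun z hz z' hz' h => ?_
    by_contra hne
    have h3 := hsep z hz z' hz' hne
    have h4 : dist (g z) z ≤ ρ := hg z hz
    have h5 : dist (g z') z' ≤ ρ := hg z' hz'
    have h6 := dist_triangle z (g z) z'
    have h : g z = g z' := h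
    rw [dist_comm z (g z)] at h6
    rw [← h] at h5
    linarith
  · intro z hz
    obtain ⟨y, hy, rfl⟩ := Finset.mem_image.1 hz
    exact ⟨mem_biUnion hy (hg y hy), hgF y hy⟩

theorem Good_open (T : X →L[ℂ] X) (w : ℂ → ℂ) (hw : Differentiable ℂ w) (k : ℕ) : IsOpen (Good T w k) := by
  rw [isOpen_iff_mem_nhds]
  rintro q ⟨hnc, s, hsc, hs⟩
  obtain ⟨C, -, hC, hev⟩ := persist T q w hw hnc s hs
  filter_upwards [hev] with p hp
  obtain ⟨h1, s', h2, h3⟩ := hp
  exact ⟨h1, s', h2.trans hsc, fun z hz => ⟨hC (h3 z hz).1, (h3 z hz).2⟩⟩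

theorem Good_dense (T : X →L[ℂ] X) (hna : ∀ P : Polynomial ℂ, P ≠ 0 → Polynomial.aeval T P ≠ 0)
    (w : ℂ → ℂ) (hw : Differentiable ℂ w) (k : ℕ) : Dense (Good T w k) := by
  classical
  induction k with
  | zero =>
    rw [Metric.dense_iff]
    intro p ε hε
    by_cases hp : ∃ z ∈ Om T, Fn T p z ≠ w z
    · exact ⟨p, mem_ball_self hε, hp, ∅, rfl, fun z hz => absurd hz (Finset.notMem_empty z)⟩
    push Not at hp
    set z0 : ℂ := ((‖T‖ + 1 : ℝ) : ℂ) with hz0
    have hz0m : z0 ∈ Om T := big_Om T (base_mem T)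
    have hR := res_pos T (Om_sub T hz0m)
    set t : ℝ := (ε / 2) ^ 2 * (‖resolvent T z0‖ / 2) with ht
    have htp : 0 < t := by positivity
    obtain ⟨q, hq, hqF⟩ := perturb (resolvent T z0) p (ε := ε / 2) (by positivity) (w := w z0 + t) (by
      have : p.2 (resolvent T z0 p.1) = w z0 := hp z0 hz0m
      rw [this, add_sub_cancel_left, Complex.norm_real, Real.norm_of_nonneg htp.le])
    refine ⟨q, ?_, ⟨z0, hz0m, ?_⟩, ∅, rfl, fun z hz => absurd hz (Finset.notMem_empty z)⟩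
    · rw [mem_ball]; linarith
    · unfold Fn
      rw [hqF]
      intro h
      have : (t : ℂ) = 0 := by simpa using h
      exact htp.ne' (by exact_mod_cast this)
  | succ k ih =>
    rw [Metric.dense_iff]
    intro p ε hε
    obtain ⟨q, hqp, hnc, s, hsc, hs⟩ := (Metric.dense_iff.1 ih) p (ε / 3) (by positivity)
    rw [mem_ball] at hqp
    by_cases hex : ∃ z ∈ Om T, z ∉ s ∧ Fn T q z = w z
    · obtain ⟨z, hz, hzs, hzF⟩ := hex
      refine ⟨q, by rw [mem_ball]; linarith, hnc, insert z s, ?_, ?_⟩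
      · rw [Finset.card_insert_of_notMem hzs, hsc]
      · intro z' hz'
        rcases Finset.mem_insert.1 hz' with h | h
        · rw [h]; exact ⟨hz, hzF⟩
        · exact hs z' h
    push Not at hex
    have hZ : ∀ z, z ∈ s ↔ z ∈ Om T ∧ Fn T q z = w z := by
      intro z
      refine ⟨hs z, fun h => ?_⟩
      by_contra hzs
      exact hex z h.1 hzs h.2
    obtain ⟨C, hC, hCΩ, hev⟩ := persist T q w hw hnc s hs
    rw [Metric.eventually_nhds_iff] at hev
    obtain ⟨δ, hδ, hδ'⟩ := hev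
    set ε' : ℝ := min (δ / 2) (ε / 3) with hε'
    have hε'p : 0 < ε' := lt_min (by linarith) (by linarith)
    obtain ⟨z, hz, hzC, hzF⟩ := key T hna q w hw hnc s hZ (η := ε' ^ 2 / 2) (by positivity) hC hCΩ
    obtain ⟨q', hq', hqF⟩ := perturb (resolvent T z) q hε'p (w := w z) (by
      have : p.2 (resolvent T z p.1) = Fn T p z := rfl
      refine hzF.trans (le_of_eq ?_)
      ring)
    have h1 : ε' ≤ δ / 2 := min_le_left _ _
    have h2 : ε' ≤ ε / 3 := min_le_right _ _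
    obtain ⟨hnc', s', hs'c, hs'⟩ := hδ' (lt_of_le_of_lt hq' (by linarith) : dist q' q < δ)
    refine ⟨q', ?_, hnc', insert z s', ?_, ?_⟩
    · rw [mem_ball]
      have := dist_triangle q' q p
      linarith
    · rw [Finset.card_insert_of_notMem fun h => hzC (hs' z h).1, hs'c, hsc]
    · intro z' hz'
      rcases Finset.mem_insert.1 hz' with h | h
      · rw [h]; exact ⟨hz, hqF⟩
      · exact ⟨hCΩ (hs' z' h).1, (hs' z' h).2⟩

/-- for a non-algebraic operator `T` and any entire function `w`, the set of `z` outside the spectrum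
with `φ((z - T)⁻¹ x) = w(z)` is infinite, for all `(x, φ)` in a residual set -/
theorem residual_inf (T : X →L[ℂ] X)
    (hna : ∀ P : Polynomial ℂ, P ≠ 0 → Polynomial.aeval T P ≠ 0) (w : ℂ → ℂ)
    (hw : Differentiable ℂ w) :
    ∀ᶠ p in residual (X × (X →L[ℂ] ℂ)),
      {z | z ∈ resolventSet ℂ T ∧ Fn T p z = w z}.Infinite := by
  have h1 : ∀ᶠ p in residual (X × (X →L[ℂ] ℂ)), ∀ k : ℕ, p ∈ Good T w k := by
    rw [eventually_countable_forall]
    intro k
    exact residual_of_dense_open (Good_open T w hw k) (Good_dense T hna w hw k)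
  filter_upwards [h1] with p hp
  intro hfin
  obtain ⟨-, s, hsc, hs⟩ := hp (hfin.toFinset.card + 1)
  have h2 : s ⊆ hfin.toFinset := fun z hz => by
    rw [Set.Finite.mem_toFinset]
    exact ⟨Om_sub T (hs z hz).1, (hs z hz).2⟩
  have h3 := Finset.card_le_card h2
  omega
end

end Pool.Agent.W768.RK
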