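import Pool.Agent.W768.RK.D

/-!
Generic rank-one perturbations, part E: invariant half-spaces.
-/

set_option autoImplicit false
set_option linter.unusedSectionVars false

open Filter Topology Metric Set

namespace Pool.Agent.W768.RK

/-- a half-space: a closed subspace of infinite dimension and infinite codimension -/
def IsHalfSpace {Y : Type*} [NormedAddCommGroup Y] [NormedSpace ℂ Y] (M : Submodule ℂ Y) : Prop :=
  IsClosed (M : Set Y) ∧ ¬ FiniteDimensional ℂ M ∧ ¬ FiniteDimensional ℂ (Y ⧸ M)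

/-- the operator `S` has an invariant half-space -/
def HasInvariantHalfSpace {Y : Type*} [NormedAddCommGroup Y] [NormedSpace ℂ Y] (S : Y →L[ℂ] Y) :
    Prop :=
  ∃ M : Submodule ℂ Y, IsHalfSpace M ∧ ∀ y ∈ M, S y ∈ M

/-- the operator `S` has a half-space invariant under all bounded operators commuting with `S` -/
def HasHyperinvariantHalfSpace {Y : Type*} [NormedAddCommGroup Y] [NormedSpace ℂ Y]
    (S : Y →L[ℂ] Y) : Prop :=
  ∃ M : Submodule ℂ Y, IsHalfSpace M ∧ ∀ Q : Y →L[ℂ] Y, Q * S = S * Q → ∀ y ∈ M, Q y ∈ M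

theorem HasHyperinvariantHalfSpace.inv {Y : Type*} [NormedAddCommGroup Y] [NormedSpace ℂ Y]
    {S : Y →L[ℂ] Y} (h : HasHyperinvariantHalfSpace S) : HasInvariantHalfSpace S := by
  obtain ⟨M, h1, h2⟩ := h
  exact ⟨M, h1, h2 S rfl⟩

section
variable {Y : Type*} [NormedAddCommGroup Y] [NormedSpace ℂ Y]

theorem not_fin_of_li {V : Type*} [AddCommGroup V] [Module ℂ V] {e : ℕ → V}
    (he : LinearIndependent ℂ e) : ¬ FiniteDimensional ℂ V := by
  intro h
  have := he.finite
  exact not_finite ℕ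

/-- a subspace spanned by linearly independent vectors and annihilated by linearly independent
functionals is a half-space -/
theorem half_of_seq (e : ℕ → Y) (ψ : ℕ → (Y →L[ℂ] ℂ)) (he : LinearIndependent ℂ e)
    (hψ : LinearIndependent ℂ ψ) (h : ∀ i j, ψ i (e j) = 0) :
    IsHalfSpace (Submodule.span ℂ (range e)).topologicalClosure := by
  refine ⟨Submodule.isClosed_topologicalClosure _, ?_, ?_⟩
  · set M := (Submodule.span ℂ (range e)).topologicalClosure with hM
    have hmem : ∀ i, e i ∈ M := fun i =>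
      Submodule.le_topologicalClosure _ (Submodule.subset_span (mem_range_self i))
    have : LinearIndependent ℂ (fun i => (⟨e i, hmem i⟩ : M)) := by
      refine LinearIndependent.of_comp M.subtype ?_
      exact he
    exact not_fin_of_li this
  · set M := (Submodule.span ℂ (range e)).topologicalClosure with hM
    intro hfin
    have hann : ∀ i, (ψ i : Y →ₗ[ℂ] ℂ) ∈ M.dualAnnihilator := by
      intro i
      rw [Submodule.mem_dualAnnihilator]
      intro y hy
      have hle : M ≤ (ψ i).ker := by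
        refine Submodule.topologicalClosure_minimal _ ?_ (ψ i).isClosed_ker
        rw [Submodule.span_le]
        rintro _ ⟨j, rfl⟩
        exact h i j
      exact hle hy
    have hfin2 : FiniteDimensional ℂ M.dualAnnihilator :=
      (Submodule.dualQuotEquivDualAnnihilator M).finiteDimensional
    have : LinearIndependent ℂ (fun i => (⟨(ψ i : Y →ₗ[ℂ] ℂ), hann i⟩ : M.dualAnnihilator)) := by
      refine LinearIndependent.of_comp (Submodule.subtype _) ?_
      have h2 : ((Submodule.subtype M.dualAnnihilator) ∘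
          fun i => (⟨(ψ i : Y →ₗ[ℂ] ℂ), hann i⟩ : M.dualAnnihilator)) =
          (ContinuousLinearMap.coeLM ℂ : (Y →L[ℂ] ℂ) →ₗ[ℂ] (Y →ₗ[ℂ] ℂ)) ∘ ψ := rfl
      rw [h2]
      refine hψ.map' _ ?_
      rw [LinearMap.ker_eq_bot]
      exact ContinuousLinearMap.coe_injective
    exact not_fin_of_li this hfin2

/-- hyperinvariant half-spaces from infinitely many eigenvalues with one-dimensional eigenspaces, which
are also eigenvalues of the adjoint -/
theorem hyper_of_eigen (S : Y →L[ℂ] Y) (μ : ℕ → ℂ) (hμ : Function.Injective μ) (e : ℕ → Y)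
    (ψ : ℕ → (Y →L[ℂ] ℂ)) (he0 : ∀ i, e i ≠ 0) (hψ0 : ∀ i, ψ i ≠ 0)
    (he : ∀ i, S (e i) = μ i • e i) (hψ : ∀ i y, ψ i (S y) = μ i * ψ i y)
    (hsimple : ∀ i y, S y = μ i • y → ∃ c : ℂ, y = c • e i) : HasHyperinvariantHalfSpace S := by
  have hμe : Function.Injective fun i => μ (2 * i) := fun i j h => by
    have := hμ h
    omega
  have hμo : Function.Injective fun i => μ (2 * i + 1) := fun i j h => by
    have := hμ h
    omega
  have hli : LinearIndependent ℂ fun i => e (2 * i) :=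
    Module.End.eigenvectors_linearIndependent' (S : Y →ₗ[ℂ] Y) _ hμe _ fun i =>
      Module.End.hasEigenvector_iff.2 ⟨Module.End.mem_eigenspace_iff.2 (he _), he0 _⟩
  have hli2 : LinearIndependent ℂ fun i => ψ (2 * i + 1) := by
    set D : (Y →L[ℂ] ℂ) →ₗ[ℂ] (Y →L[ℂ] ℂ) :=
      { toFun := fun θ => θ.comp S
        map_add' := fun a b => by ext; simp
        map_smul' := fun c a => by ext; simp } with hD
    refine Module.End.eigenvectors_linearIndependent' D _ hμo _ fun i => ?_
    refine Module.End.hasEigenvector_iff.2 ⟨Module.End.mem_eigenspace_iff.2 ?_, hψ0 _⟩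
    ext y
    exact hψ _ y
  have horth : ∀ i j, ψ (2 * i + 1) (e (2 * j)) = 0 := by
    intro i j
    have h1 := hψ (2 * i + 1) (e (2 * j))
    rw [he, map_smul, smul_eq_mul] at h1
    have h2 : μ (2 * j) ≠ μ (2 * i + 1) := fun h => by
      have := hμ h
      omega
    have h3 : (μ (2 * j) - μ (2 * i + 1)) * ψ (2 * i + 1) (e (2 * j)) = 0 := by
      rw [sub_mul, h1, sub_self]
    exact (mul_eq_zero.1 h3).resolve_left (sub_ne_zero.2 h2)
  refine ⟨_, half_of_seq _ _ hli hli2 horth, fun Q hQ y hy => ?_⟩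
  set M := (Submodule.span ℂ (range fun i => e (2 * i))).topologicalClosure with hM
  have hle : M ≤ M.comap (Q : Y →ₗ[ℂ] Y) := by
    refine Submodule.topologicalClosure_minimal _ ?_ ?_
    · rw [Submodule.span_le]
      rintro _ ⟨j, rfl⟩
      have h1 : S (Q (e (2 * j))) = μ (2 * j) • Q (e (2 * j)) := by
        have h2 : S (Q (e (2 * j))) = Q (S (e (2 * j))) :=
          (congrArg (fun Z : Y →L[ℂ] Y => Z (e (2 * j))) hQ).symm
        rw [h2, he, map_smul]
      obtain ⟨c, hc⟩ := hsimple _ _ h1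
      change Q (e (2 * j)) ∈ M
      rw [hc]
      exact M.smul_mem c (Submodule.le_topologicalClosure _ (Submodule.subset_span ⟨j, rfl⟩))
    · exact (Submodule.isClosed_topologicalClosure _).preimage Q.continuous
  exact hle hy

/-- an infinite-dimensional subspace minus a finite-dimensional condition is infinite-dimensional -/
theorem inf_inter_ker {V : Type*} [AddCommGroup V] [Module ℂ V] (E : Submodule ℂ V)
    (hE : ¬ E.FG) (ψ : V →ₗ[ℂ] ℂ) : ¬ (E ⊓ LinearMap.ker ψ).FG := by
  intro hfin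
  exact hE (Submodule.fg_of_fg_map_of_fg_inf_ker ψ (IsNoetherian.noetherian _) hfin)

theorem inf_inter_kers {V : Type*} [AddCommGroup V] [Module ℂ V] (E : Submodule ℂ V)
    (hE : ¬ E.FG) {ι : Type*} (s : Finset ι) (ψ : ι → (V →ₗ[ℂ] ℂ)) :
    ¬ (E ⊓ s.inf fun i => LinearMap.ker (ψ i)).FG := by
  classical
  induction s using Finset.induction_on with
  | empty => simpa using hE
  | insert a s ha ih =>
    rw [Finset.inf_insert, inf_comm (LinearMap.ker (ψ a)), ← inf_assoc]
    exact inf_inter_ker _ ih _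

theorem li_of_biorth {V : Type*} [AddCommGroup V] [Module ℂ V] (e : ℕ → V) (θ : ℕ → (V →ₗ[ℂ] ℂ))
    (h1 : ∀ i, θ i (e i) = 1) (h2 : ∀ i j, i ≠ j → θ i (e j) = 0) : LinearIndependent ℂ e := by
  rw [linearIndependent_iff']
  intro s g hg i hi
  have h3 := congrArg (θ i) hg
  rw [map_sum, map_zero, Finset.sum_eq_single i] at h3
  · rwa [map_smul, h1, smul_eq_mul, mul_one] at h3
  · intro j _ hji
    rw [map_smul, h2 i j hji.symm, smul_zero]
  · exact fun h => absurd hi h

/-- every closed infinite-dimensional subspace contains a half-space of the whole space -/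
theorem half_in (E : Submodule ℂ Y) (hEc : IsClosed (E : Set Y)) (hE : ¬ E.FG) :
    ∃ M : Submodule ℂ Y, M ≤ E ∧ IsHalfSpace M := by
  classical
  set r : Y × (Y →L[ℂ] ℂ) → Y × (Y →L[ℂ] ℂ) → Prop :=
    fun x y => x.2 y.1 = 0 ∧ y.2 x.1 = 0 with hr
  have hsymm : Std.Symm r := ⟨fun _ _ h => ⟨h.2, h.1⟩⟩
  obtain ⟨f, hf1, hf2⟩ := exists_seq_of_forall_finset_exists'
    (α := Y × (Y →L[ℂ] ℂ)) (fun x => x.1 ∈ E ∧ x.2 x.1 = 1) r (by
      intro s hs
      set E' : Submodule ℂ Y := E ⊓ s.inf fun x => LinearMap.ker (x.2 : Y →ₗ[ℂ] ℂ) with hE'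
      have hE'i : ¬ E'.FG := inf_inter_kers E hE s fun x => (x.2 : Y →ₗ[ℂ] ℂ)
      set W : Submodule ℂ Y := Submodule.span ℂ (s.image Prod.fst : Finset Y) with hW
      have hWfg : W.FG := ⟨_, rfl⟩
      have hWfd : FiniteDimensional ℂ W := Submodule.fg_iff_finiteDimensional _ |>.1 hWfg
      obtain ⟨v, hvE, hvW⟩ : ∃ v ∈ E', v ∉ W := by
        by_contra hcon
        push Not at hcon
        have hle : E' ≤ W := hcon
        have : FiniteDimensional ℂ E' := Submodule.finiteDimensional_of_le hle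
        exact hE'i (Submodule.fg_iff_finiteDimensional _ |>.2 this)
      have : IsClosed (W : Set Y) := W.closed_of_finiteDimensional
      have hv0 : (Submodule.Quotient.mk v : Y ⧸ W) ≠ 0 := by
        rwa [Ne, Submodule.Quotient.mk_eq_zero]
      obtain ⟨g, hg⟩ := SeparatingDual.exists_ne_zero (R := ℂ) hv0
      set ψ : Y →L[ℂ] ℂ := (g (Submodule.Quotient.mk v))⁻¹ • g.comp W.mkQL with hψ
      refine ⟨(v, ψ), ⟨hvE.1, ?_⟩, fun x hx => ⟨?_, ?_⟩⟩
      · simp only [hψ, smul_apply, ContinuousLinearMap.comp_apply, smul_eq_mul]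
        exact inv_mul_cancel₀ hg
      · have := hvE.2
        rw [SetLike.mem_coe, Submodule.mem_finsetInf] at this
        exact this x hx
      · have hxW : x.1 ∈ W := Submodule.subset_span (by
          simp only [Finset.coe_image]
          exact mem_image_of_mem _ hx)
        simp only [hψ, smul_apply, ContinuousLinearMap.comp_apply, smul_eq_mul]
        have : W.mkQL x.1 = 0 := (Submodule.Quotient.mk_eq_zero W).2 hxW
        rw [this, map_zero, mul_zero])
  have hr1 : ∀ i j, i ≠ j → (f i).2 (f j).1 = 0 := fun i j hij => (hf2 hij).1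
  refine ⟨_, ?_, half_of_seq (fun i => (f (2 * i)).1) (fun i => (f (2 * i + 1)).2) ?_ ?_ ?_⟩
  · refine Submodule.topologicalClosure_minimal _ ?_ hEc
    rw [Submodule.span_le]
    rintro _ ⟨i, rfl⟩
    exact (hf1 _).1
  · refine li_of_biorth _ (fun i => ((f (2 * i)).2 : Y →ₗ[ℂ] ℂ)) (fun i => (hf1 _).2) fun i j hij => ?_
    exact hr1 _ _ (by omega)
  · refine li_of_biorth _ (fun i => (LinearMap.applyₗ (f (2 * i + 1)).1).comp
      (ContinuousLinearMap.coeLM ℂ)) (fun i => (hf1 _).2) fun i j hij => ?_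
    exact hr1 _ _ (by omega)
  · exact fun i j => hr1 _ _ (by omega)

/-- an algebraic operator has an infinite-dimensional eigenspace -/
theorem alg_eigen (T : Y →L[ℂ] Y) : ∀ (n : ℕ) (P : Polynomial ℂ), P.natDegree ≤ n → P ≠ 0 →
    ¬ (LinearMap.ker ((Polynomial.aeval T P : Y →L[ℂ] Y) : Y →ₗ[ℂ] Y)).FG →
    ∃ a : ℂ, ¬ (LinearMap.ker ((T - algebraMap ℂ (Y →L[ℂ] Y) a : Y →L[ℂ] Y) : Y →ₗ[ℂ] Y)).FG := by
  intro n
  induction n with
  | zero =>
    intro P hP hP0 hker
    exfalso
    apply hker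
    obtain ⟨c, rfl⟩ := Polynomial.natDegree_eq_zero.1 (Nat.le_zero.1 hP)
    have hc : c ≠ 0 := fun h => hP0 (by rw [h, Polynomial.C_0])
    have : LinearMap.ker ((Polynomial.aeval T (Polynomial.C c) : Y →L[ℂ] Y) : Y →ₗ[ℂ] Y) = ⊥ := by
      rw [LinearMap.ker_eq_bot']
      intro y hy
      rw [Polynomial.aeval_C] at hy
      have h2 : c • y = 0 := by
        rw [Algebra.algebraMap_eq_smul_one] at hy
        simpa using hy
      exact (smul_eq_zero.1 h2).resolve_left hc
    rw [this]
    exact Submodule.fg_bot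
  | succ n ih =>
    intro P hP hP0 hker
    by_cases hdeg : P.degree = 0
    · exact ih P ((Polynomial.natDegree_eq_zero_iff_degree_le_zero.2 hdeg.le).le.trans (Nat.zero_le _))
        hP0 hker
    obtain ⟨a, ha⟩ := IsAlgClosed.exists_root P hdeg
    obtain ⟨Q, hQ⟩ := Polynomial.dvd_iff_isRoot.2 ha
    have hQ0 : Q ≠ 0 := fun h => hP0 (by rw [hQ, h, mul_zero])
    have hQd : Q.natDegree ≤ n := by
      have h1 : P.natDegree = 1 + Q.natDegree := by
        rw [hQ, Polynomial.natDegree_mul (Polynomial.X_sub_C_ne_zero a) hQ0,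
          Polynomial.natDegree_X_sub_C]
      omega
    by_cases h1 : (LinearMap.ker ((T - algebraMap ℂ (Y →L[ℂ] Y) a : Y →L[ℂ] Y) : Y →ₗ[ℂ] Y)).FG
    · refine ih Q hQd hQ0 fun h2 => hker ?_
      refine Submodule.fg_of_fg_map_of_fg_inf_ker
        ((Polynomial.aeval T Q : Y →L[ℂ] Y) : Y →ₗ[ℂ] Y) ?_ ?_
      · have hle : (LinearMap.ker ((Polynomial.aeval T P : Y →L[ℂ] Y) : Y →ₗ[ℂ] Y)).map
            ((Polynomial.aeval T Q : Y →L[ℂ] Y) : Y →ₗ[ℂ] Y) ≤
            LinearMap.ker ((T - algebraMap ℂ (Y →L[ℂ] Y) a : Y →L[ℂ] Y) : Y →ₗ[ℂ] Y) := by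
          rintro _ ⟨y, hy, rfl⟩
          have hy' : (Polynomial.aeval T P : Y →L[ℂ] Y) y = 0 := hy
          rw [hQ, map_mul, map_sub, Polynomial.aeval_X, Polynomial.aeval_C] at hy'
          exact hy'
        have : FiniteDimensional ℂ (LinearMap.ker
            ((T - algebraMap ℂ (Y →L[ℂ] Y) a : Y →L[ℂ] Y) : Y →ₗ[ℂ] Y)) :=
          Submodule.fg_iff_finiteDimensional _ |>.1 h1
        have := Submodule.finiteDimensional_of_le hle
        exact Submodule.fg_iff_finiteDimensional _ |>.2 this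
      · have : FiniteDimensional ℂ (LinearMap.ker
            ((Polynomial.aeval T Q : Y →L[ℂ] Y) : Y →ₗ[ℂ] Y)) :=
          Submodule.fg_iff_finiteDimensional _ |>.1 h2
        have := Submodule.finiteDimensional_of_le (inf_le_right :
          (LinearMap.ker ((Polynomial.aeval T P : Y →L[ℂ] Y) : Y →ₗ[ℂ] Y)) ⊓
            LinearMap.ker ((Polynomial.aeval T Q : Y →L[ℂ] Y) : Y →ₗ[ℂ] Y) ≤ _)
        exact Submodule.fg_iff_finiteDimensional _ |>.2 this
    · exact ⟨a, h1⟩

/-- an operator which is a multiple of the identity on an infinite-dimensional closed subspace has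
invariant half-spaces -/
theorem inv_of_scalar (S : Y →L[ℂ] Y) (E : Submodule ℂ Y) (hEc : IsClosed (E : Set Y)) (hE : ¬ E.FG)
    (a : ℂ) (hS : ∀ y ∈ E, S y = a • y) : HasInvariantHalfSpace S := by
  obtain ⟨M, hM, hMh⟩ := half_in E hEc hE
  exact ⟨M, hMh, fun y hy => by rw [hS y (hM hy)]; exact M.smul_mem a hy⟩
end

end Pool.Agent.W768.RK
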