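import Pool.Agent.W768.RK.E

/-!
Generic rank-one perturbations, part F: the main theorem.
-/

set_option autoImplicit false
set_option linter.unusedSectionVars false

open Filter Topology Metric Set

namespace Pool.Agent.W768.RK

section
variable {X : Type*} [NormedAddCommGroup X] [NormedSpace ℂ X]

/-- the rank-one perturbation `y ↦ T y + c φ(y) x` of `T` -/
noncomputable def pert (T : X →L[ℂ] X) (c : ℂ) (x : X) (φ : X →L[ℂ] ℂ) : X →L[ℂ] X :=
  T + c • φ.smulRight x

/-- the compression of `T` to the hyperplane `ker φ` along `x`: `y ↦ T y - (φ(T y) / φ(x)) x` -/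
noncomputable def compr (T : X →L[ℂ] X) (x : X) (φ : X →L[ℂ] ℂ) (h : φ x ≠ 0) :
    φ.ker →L[ℂ] φ.ker :=
  ((T - (φ.comp T).smulRight ((φ x)⁻¹ • x)).comp φ.ker.subtypeL).codRestrict φ.ker (by
    intro y
    change φ (T y - (φ (T y)) • ((φ x)⁻¹ • x)) = 0
    rw [map_sub, map_smul, map_smul, smul_eq_mul, smul_eq_mul, inv_mul_cancel₀ h, mul_one, sub_self])

/-- the one-dimensional extension of `T` to `X × ℂ`, with matrix `[[T, x], [φ, a]]`:
`(y, s) ↦ (T y + s x, φ(y) + a s)` -/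
noncomputable def extn (T : X →L[ℂ] X) (x : X) (φ : X →L[ℂ] ℂ) (a : ℂ) : X × ℂ →L[ℂ] X × ℂ :=
  (T.comp (ContinuousLinearMap.fst ℂ X ℂ) +
    (ContinuousLinearMap.snd ℂ X ℂ).smulRight x).prod
  (φ.comp (ContinuousLinearMap.fst ℂ X ℂ) + a • ContinuousLinearMap.snd ℂ X ℂ)

theorem extn_apply (T : X →L[ℂ] X) (x : X) (φ : X →L[ℂ] ℂ) (a : ℂ) (y : X × ℂ) :
    extn T x φ a y = (T y.1 + y.2 • x, φ y.1 + a * y.2) := by
  simp [extn]

theorem pert_apply (T : X →L[ℂ] X) (c : ℂ) (x : X) (φ : X →L[ℂ] ℂ) (y : X) :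
    pert T c x φ y = T y + (c * φ y) • x := by
  simp only [pert, add_apply, smul_apply, ContinuousLinearMap.smulRight_apply, smul_smul]

theorem compr_apply (T : X →L[ℂ] X) (x : X) (φ : X →L[ℂ] ℂ) (h : φ x ≠ 0) (y : φ.ker) :
    ((compr T x φ h y : φ.ker) : X) = T y - (φ (T y) * (φ x)⁻¹) • x := by
  change T (y : X) - (φ (T y)) • ((φ x)⁻¹ • x) = _
  rw [smul_smul]

variable [CompleteSpace X] [Nontrivial X]

theorem T_res (T : X →L[ℂ] X) {z : ℂ} (hz : z ∈ resolventSet ℂ T) (y : X) :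
    T (resolvent T z y) = z • resolvent T z y - y := by
  have h := congrArg (fun Z : X →L[ℂ] X => Z y) (mul_res T hz)
  have h1 : z • resolvent T z y - T (resolvent T z y) = y := by
    rw [Algebra.algebraMap_eq_smul_one] at h
    simpa using h
  calc T (resolvent T z y) = z • resolvent T z y - (z • resolvent T z y - T (resolvent T z y)) := by
        abel
    _ = _ := by rw [h1]

theorem res_T (T : X →L[ℂ] X) {z : ℂ} (hz : z ∈ resolventSet ℂ T) (y : X) :
    resolvent T z (T y) = z • resolvent T z y - y := by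
  have h := congrArg (fun Z : X →L[ℂ] X => Z y) (res_mul T hz)
  have h1 : z • resolvent T z y - resolvent T z (T y) = y := by
    rw [Algebra.algebraMap_eq_smul_one] at h
    simpa using h
  calc resolvent T z (T y) = z • resolvent T z y - (z • resolvent T z y - resolvent T z (T y)) := by
        abel
    _ = _ := by rw [h1]

theorem eq_res (T : X →L[ℂ] X) {z : ℂ} (hz : z ∈ resolventSet ℂ T) {y u : X}
    (h : z • y - T y = u) : y = resolvent T z u := by
  rw [← h, map_sub, map_smul, res_T T hz]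
  abel

theorem hyper_pert (T : X →L[ℂ] X) {c : ℂ} (hc : c ≠ 0) (x : X) (φ : X →L[ℂ] ℂ)
    (hinf : {z | z ∈ resolventSet ℂ T ∧ Fn T (x, φ) z = c⁻¹}.Infinite) :
    HasHyperinvariantHalfSpace (pert T c x φ) ∧
      {z | z ∉ spectrum ℂ T ∧ Module.End.HasEigenvalue (pert T c x φ : X →ₗ[ℂ] X) z}.Infinite := by
  have heig : ∀ z, z ∈ resolventSet ℂ T → Fn T (x, φ) z = c⁻¹ →
      resolvent T z x ≠ 0 ∧ pert T c x φ (resolvent T z x) = z • resolvent T z x := by
    intro z hz hF
    have hF' : φ (resolvent T z x) = c⁻¹ := hF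
    refine ⟨fun h => ?_, ?_⟩
    · rw [h, map_zero] at hF'
      exact inv_ne_zero hc hF'.symm
    · rw [pert_apply, hF', mul_inv_cancel₀ hc, one_smul, T_res T hz]
      abel
  refine ⟨?_, ?_⟩
  · obtain ⟨μ, hμinj, hμ⟩ : ∃ μ : ℕ → ℂ, Function.Injective μ ∧
        ∀ i, μ i ∈ resolventSet ℂ T ∧ Fn T (x, φ) (μ i) = c⁻¹ :=
      ⟨fun i => (hinf.natEmbedding _ i).1,
        fun i j h => (hinf.natEmbedding _).injective (Subtype.ext h),
        fun i => (hinf.natEmbedding _ i).2⟩
    refine hyper_of_eigen (pert T c x φ) μ hμinj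
      (fun i => resolvent T (μ i) x) (fun i => φ.comp (resolvent T (μ i)))
      (fun i => (heig _ (hμ i).1 (hμ i).2).1) ?_ (fun i => (heig _ (hμ i).1 (hμ i).2).2) ?_ ?_
    · intro i h
      have h1 : φ (resolvent T (μ i) x) = c⁻¹ := (hμ i).2
      have h2 := congrArg (fun Z : X →L[ℂ] ℂ => Z x) h
      simp only [ContinuousLinearMap.comp_apply, zero_apply] at h2
      rw [h2] at h1
      exact inv_ne_zero hc h1.symm
    · intro i y
      have h1 : φ (resolvent T (μ i) x) = c⁻¹ := (hμ i).2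
      rw [ContinuousLinearMap.comp_apply, ContinuousLinearMap.comp_apply, pert_apply, map_add,
        map_smul, res_T T (hμ i).1, map_add, map_sub, map_smul, map_smul, h1, smul_eq_mul,
        smul_eq_mul]
      field_simp
      ring
    · intro i y hy
      rw [pert_apply] at hy
      refine ⟨c * φ y, ?_⟩
      have h1 : (μ i : ℂ) • y - T y = (c * φ y) • x := by rw [← hy]; abel
      have h2 := eq_res T (hμ i).1 h1
      rw [map_smul] at h2
      exact h2
  · refine hinf.mono fun z hz => ⟨fun h => h hz.1, ?_⟩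
    obtain ⟨h1, h2⟩ := heig z hz.1 hz.2
    exact Module.End.hasEigenvalue_of_hasEigenvector
      (Module.End.hasEigenvector_iff.2 ⟨Module.End.mem_eigenspace_iff.2 h2, h1⟩)

theorem hyper_compr (T : X →L[ℂ] X) (x : X) (φ : X →L[ℂ] ℂ) (h : φ x ≠ 0)
    (hinf : {z | z ∈ resolventSet ℂ T ∧ Fn T (x, φ) z = 0}.Infinite) :
    HasHyperinvariantHalfSpace (compr T x φ h) ∧
      {z | z ∉ spectrum ℂ T ∧
        Module.End.HasEigenvalue (compr T x φ h : φ.ker →ₗ[ℂ] φ.ker) z}.Infinite := by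
  have hx0 : x ≠ 0 := fun h0 => h (by rw [h0, map_zero])
  have hφ0 : φ ≠ 0 := fun h0 => h (by rw [h0, zero_apply])
  have hmem : ∀ z, Fn T (x, φ) z = 0 → resolvent T z x ∈ φ.ker := fun z hF => hF
  have hne : ∀ z, z ∈ resolventSet ℂ T → resolvent T z x ≠ 0 := by
    intro z hz h0
    have := T_res T hz x
    rw [h0, map_zero, smul_zero, zero_sub, eq_comm, neg_eq_zero] at this
    exact hx0 this
  have heig : ∀ z (hz : z ∈ resolventSet ℂ T) (hF : Fn T (x, φ) z = 0),
      compr T x φ h ⟨resolvent T z x, hmem z hF⟩ = z • (⟨resolvent T z x, hmem z hF⟩ : φ.ker) := by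
    intro z hz hF
    have hF' : φ (resolvent T z x) = 0 := hF
    apply Subtype.ext
    rw [compr_apply]
    change T (resolvent T z x) - (φ (T (resolvent T z x)) * (φ x)⁻¹) • x = z • resolvent T z x
    rw [T_res T hz, map_sub, map_smul, hF', smul_zero, zero_sub, neg_mul, mul_inv_cancel₀ h,
      neg_smul, one_smul]
    abel
  refine ⟨?_, ?_⟩
  · obtain ⟨μ, hμinj, hμ⟩ : ∃ μ : ℕ → ℂ, Function.Injective μ ∧
        ∀ i, μ i ∈ resolventSet ℂ T ∧ Fn T (x, φ) (μ i) = 0 :=
      ⟨fun i => (hinf.natEmbedding _ i).1,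
        fun i j h => (hinf.natEmbedding _).injective (Subtype.ext h),
        fun i => (hinf.natEmbedding _ i).2⟩
    refine hyper_of_eigen (compr T x φ h) μ hμinj
      (fun i => ⟨resolvent T (μ i) x, hmem _ (hμ i).2⟩)
      (fun i => (φ.comp (resolvent T (μ i))).comp φ.ker.subtypeL)
      (fun i h0 => hne _ (hμ i).1 (congrArg Subtype.val h0)) ?_
      (fun i => heig _ (hμ i).1 (hμ i).2) ?_ ?_
    · intro i h0
      -- `φ ∘ R` vanishes on `ker φ` and at `x`, hence everywhere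
      have h1 : ∀ y : X, φ (resolvent T (μ i) y) = 0 := by
        intro y
        have h2 : y - (φ y * (φ x)⁻¹) • x ∈ φ.ker := by
          change φ (y - (φ y * (φ x)⁻¹) • x) = 0
          rw [map_sub, map_smul, smul_eq_mul, mul_assoc, inv_mul_cancel₀ h, mul_one, sub_self]
        have h3 := congrArg (fun Z : φ.ker →L[ℂ] ℂ => Z ⟨_, h2⟩) h0
        have h4 : φ (resolvent T (μ i) (y - (φ y * (φ x)⁻¹) • x)) = 0 := h3
        have h5 : φ (resolvent T (μ i) x) = 0 := (hμ i).2
        rw [map_sub, map_sub, map_smul, map_smul, h5, smul_zero, sub_zero] at h4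
        exact h4
      apply h
      have h6 := h1 ((μ i : ℂ) • x - T x)
      rwa [← eq_res T (hμ i).1 rfl] at h6
    · intro i y
      have h5 : φ (resolvent T (μ i) x) = 0 := (hμ i).2
      have hy : φ (y : X) = 0 := y.2
      change φ (resolvent T (μ i) ((compr T x φ h y : φ.ker) : X)) =
        (μ i : ℂ) * φ (resolvent T (μ i) (y : X))
      rw [compr_apply, map_sub, map_sub, map_smul, map_smul, h5, smul_zero, sub_zero,
        res_T T (hμ i).1, map_sub, map_smul, hy, sub_zero, smul_eq_mul]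
    · intro i y hy
      have hy' := congrArg Subtype.val hy
      rw [compr_apply] at hy'
      change T (y : X) - (φ (T y) * (φ x)⁻¹) • x = (μ i : ℂ) • (y : X) at hy'
      refine ⟨-(φ (T y) * (φ x)⁻¹), ?_⟩
      apply Subtype.ext
      change (y : X) = -(φ (T y) * (φ x)⁻¹) • resolvent T (μ i) x
      have h1 : (μ i : ℂ) • (y : X) - T y = (-(φ (T y) * (φ x)⁻¹)) • x := by
        rw [← hy', neg_smul]; abel
      have h2 := eq_res T (hμ i).1 h1
      rw [map_smul] at h2
      exact h2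
  · refine hinf.mono fun z hz => ⟨fun h => h hz.1, ?_⟩
    refine Module.End.hasEigenvalue_of_hasEigenvector (x := ⟨resolvent T z x, hmem z hz.2⟩)
      (Module.End.hasEigenvector_iff.2 ⟨Module.End.mem_eigenspace_iff.2 (heig z hz.1 hz.2), ?_⟩)
    exact fun h0 => hne z hz.1 (congrArg Subtype.val h0)

theorem hyper_extn (T : X →L[ℂ] X) (x : X) (φ : X →L[ℂ] ℂ) (a : ℂ)
    (hinf : {z | z ∈ resolventSet ℂ T ∧ Fn T (x, φ) z = z - a}.Infinite) :
    HasHyperinvariantHalfSpace (extn T x φ a) ∧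
      {z | z ∉ spectrum ℂ T ∧
        Module.End.HasEigenvalue (extn T x φ a : X × ℂ →ₗ[ℂ] X × ℂ) z}.Infinite := by
  have heig : ∀ z, z ∈ resolventSet ℂ T → Fn T (x, φ) z = z - a →
      extn T x φ a (resolvent T z x, 1) = z • (resolvent T z x, (1 : ℂ)) := by
    intro z hz hF
    have hF' : φ (resolvent T z x) = z - a := hF
    rw [extn_apply]
    simp only [hF', one_smul, mul_one, T_res T hz, sub_add_cancel, Prod.smul_mk, smul_eq_mul]
  have hne : ∀ z : ℂ, (resolvent T z x, (1 : ℂ)) ≠ 0 := fun z h =>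
    one_ne_zero (congrArg Prod.snd h)
  refine ⟨?_, ?_⟩
  · obtain ⟨μ, hμinj, hμ⟩ : ∃ μ : ℕ → ℂ, Function.Injective μ ∧
        ∀ i, μ i ∈ resolventSet ℂ T ∧ Fn T (x, φ) (μ i) = μ i - a :=
      ⟨fun i => (hinf.natEmbedding _ i).1,
        fun i j h => (hinf.natEmbedding _).injective (Subtype.ext h),
        fun i => (hinf.natEmbedding _ i).2⟩
    refine hyper_of_eigen (extn T x φ a) μ hμinj
      (fun i => (resolvent T (μ i) x, (1 : ℂ)))
      (fun i => (φ.comp (resolvent T (μ i))).comp (ContinuousLinearMap.fst ℂ X ℂ) +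
        ContinuousLinearMap.snd ℂ X ℂ)
      (fun i => hne _) ?_ (fun i => heig _ (hμ i).1 (hμ i).2) ?_ ?_
    · intro i h
      have h2 := congrArg (fun Z : X × ℂ →L[ℂ] ℂ => Z (0, 1)) h
      simp at h2
    · intro i y
      have h1 : φ (resolvent T (μ i) x) = μ i - a := (hμ i).2
      rw [extn_apply]
      change φ (resolvent T (μ i) (T y.1 + y.2 • x)) + (φ y.1 + a * y.2) =
        μ i * (φ (resolvent T (μ i) y.1) + y.2)
      rw [map_add, map_smul, res_T T (hμ i).1, map_add, map_sub, map_smul, map_smul, h1,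
        smul_eq_mul, smul_eq_mul]
      ring
    · intro i y hy
      rw [extn_apply] at hy
      have hy1 : T y.1 + y.2 • x = μ i • y.1 := congrArg Prod.fst hy
      have h1 : μ i • y.1 - T y.1 = y.2 • x := by rw [← hy1]; abel
      have h2 := eq_res T (hμ i).1 h1
      rw [map_smul] at h2
      refine ⟨y.2, Prod.ext ?_ ?_⟩
      · exact h2
      · simp
  · refine hinf.mono fun z hz => ⟨fun h => h hz.1, ?_⟩
    exact Module.End.hasEigenvalue_of_hasEigenvector
      (Module.End.hasEigenvector_iff.2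
        ⟨Module.End.mem_eigenspace_iff.2 (heig z hz.1 hz.2), hne z⟩)

theorem alg_case (T : X →L[ℂ] X) (hX : ¬ FiniteDimensional ℂ X) (hT : IsAlgebraic ℂ T) (c a' : ℂ)
    (x : X) (φ : X →L[ℂ] ℂ) (h : φ x ≠ 0) :
    HasInvariantHalfSpace (pert T c x φ) ∧ HasInvariantHalfSpace (compr T x φ h) ∧
      HasInvariantHalfSpace (extn T x φ a') := by
  obtain ⟨P, hP0, hP⟩ := hT
  obtain ⟨a, ha⟩ := alg_eigen T P.natDegree P le_rfl hP0 (by
    rw [hP]
    intro h1
    apply hX
    have h2 : LinearMap.ker (((0 : X →L[ℂ] X)) : X →ₗ[ℂ] X) = ⊤ := by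
      ext y; simp
    rw [h2] at h1
    exact Module.finite_def.2 h1)
  set A : X →L[ℂ] X := T - algebraMap ℂ (X →L[ℂ] X) a with hA
  set E : Submodule ℂ X := LinearMap.ker (A : X →ₗ[ℂ] X) ⊓ LinearMap.ker (φ : X →ₗ[ℂ] ℂ) with hE
  have hEi : ¬ E.FG := inf_inter_ker _ ha _
  have hEc : IsClosed (E : Set X) := (A.isClosed_ker).inter φ.isClosed_ker
  have hET : ∀ y ∈ E, T y = a • y := by
    intro y hy
    have h1 : A y = 0 := hy.1
    rw [hA, Algebra.algebraMap_eq_smul_one] at h1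
    have h2 : T y - a • y = 0 := by simpa using h1
    exact sub_eq_zero.1 h2
  have hEφ : ∀ y ∈ E, φ y = 0 := fun y hy => hy.2
  refine ⟨inv_of_scalar _ E hEc hEi a fun y hy => ?_, ?_, ?_⟩
  · rw [pert_apply, hEφ y hy, mul_zero, zero_smul, add_zero, hET y hy]
  · have hle : E ≤ φ.ker := inf_le_right
    have hEi' : ¬ (E.comap φ.ker.subtype).FG := by
      intro hfg
      apply hEi
      have h1 := hfg.map φ.ker.subtype
      rwa [Submodule.map_comap_subtype, inf_eq_right.2 hle] at h1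
    refine inv_of_scalar _ (E.comap φ.ker.subtype) (hEc.preimage continuous_subtype_val) hEi' a
      fun y hy => ?_
    apply Subtype.ext
    rw [compr_apply]
    have hy' : (y : X) ∈ E := hy
    rw [hET _ hy', map_smul, hEφ _ hy', smul_zero, zero_mul, zero_smul, sub_zero]
    rfl
  · have hEi' : ¬ (E.prod (⊥ : Submodule ℂ ℂ)).FG := by
      intro hfg
      apply hEi
      have h1 := hfg.map (LinearMap.fst ℂ X ℂ)
      rwa [Submodule.prod_map_fst] at h1
    have hcl : IsClosed ((E.prod (⊥ : Submodule ℂ ℂ) : Submodule ℂ (X × ℂ)) : Set (X × ℂ)) := by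
      rw [Submodule.prod_coe]
      exact hEc.prod (by rw [Submodule.bot_coe]; exact isClosed_singleton)
    refine inv_of_scalar _ _ hcl hEi' a fun y hy => ?_
    obtain ⟨hy1, hy2⟩ := hy
    have hy2' : y.2 = 0 := hy2
    rw [extn_apply, hET _ hy1, hEφ _ hy1, hy2', zero_smul, add_zero, mul_zero, add_zero]
    exact Prod.ext rfl (by simp [hy2'])
end

/-- the set of eigenvalues of the operator `S` outside the spectrum of `T` is infinite -/
def ManyEigenvalues {X Y : Type*} [NormedAddCommGroup X] [NormedSpace ℂ X] [NormedAddCommGroup Y]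
    [NormedSpace ℂ Y] (T : X →L[ℂ] X) (S : Y →L[ℂ] Y) : Prop :=
  {z | z ∉ spectrum ℂ T ∧ Module.End.HasEigenvalue (S : Y →ₗ[ℂ] Y) z}.Infinite

theorem main (X : Type*) [NormedAddCommGroup X] [NormedSpace ℂ X] [CompleteSpace X]
    (hX : ¬ FiniteDimensional ℂ X) (T : ℕ → X →L[ℂ] X) (c a : ℕ → ℂ) (hc : ∀ n, c n ≠ 0) :
    ∀ᶠ p in residual (X × (X →L[ℂ] ℂ)), ∃ h : p.2 p.1 ≠ 0, ∀ n,
      (HasInvariantHalfSpace (pert (T n) (c n) p.1 p.2) ∧
        HasInvariantHalfSpace (compr (T n) p.1 p.2 h) ∧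
        HasInvariantHalfSpace (extn (T n) p.1 p.2 (a n))) ∧
      (¬ IsAlgebraic ℂ (T n) →
        (HasHyperinvariantHalfSpace (pert (T n) (c n) p.1 p.2) ∧
          HasHyperinvariantHalfSpace (compr (T n) p.1 p.2 h) ∧
          HasHyperinvariantHalfSpace (extn (T n) p.1 p.2 (a n))) ∧
        (ManyEigenvalues (T n) (pert (T n) (c n) p.1 p.2) ∧
          ManyEigenvalues (T n) (compr (T n) p.1 p.2 h) ∧
          ManyEigenvalues (T n) (extn (T n) p.1 p.2 (a n)))) := by
  have : Nontrivial X := by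
    by_contra hn
    rw [not_nontrivial_iff_subsingleton] at hn
    exact hX inferInstance
  have h1 : ∀ᶠ p in residual (X × (X →L[ℂ] ℂ)), p.2 p.1 ≠ 0 := by
    refine residual_of_dense_open (s := {p : X × (X →L[ℂ] ℂ) | p.2 p.1 ≠ 0}) ?_ ?_
    · exact isOpen_ne_fun (by fun_prop) continuous_const
    · rw [Metric.dense_iff]
      intro p ε hε
      by_cases hp : p.2 p.1 = 0
      · set t : ℝ := (ε / 2) ^ 2 * (1 / 2) with ht
        have htp : 0 < t := by positivity
        obtain ⟨q, hq, hqF⟩ := perturb (1 : X →L[ℂ] X) p (ε := ε / 2) (by positivity) (w := t) (by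
          change ‖(t : ℂ) - p.2 p.1‖ ≤ _
          rw [hp, sub_zero, Complex.norm_real, Real.norm_of_nonneg htp.le, norm_one])
        refine ⟨q, by rw [mem_ball]; linarith, ?_⟩
        have : q.2 q.1 = t := hqF
        rw [mem_ofPred_eq, this]
        exact_mod_cast htp.ne'
      · exact ⟨p, mem_ball_self hε, hp⟩
  have h2 : ∀ᶠ p in residual (X × (X →L[ℂ] ℂ)), ∀ n, ¬ IsAlgebraic ℂ (T n) →
      {z | z ∈ resolventSet ℂ (T n) ∧ Fn (T n) p z = (c n)⁻¹}.Infinite ∧
      {z | z ∈ resolventSet ℂ (T n) ∧ Fn (T n) p z = 0}.Infinite ∧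
      {z | z ∈ resolventSet ℂ (T n) ∧ Fn (T n) p z = z - a n}.Infinite := by
    rw [eventually_countable_forall]
    intro n
    by_cases hT : IsAlgebraic ℂ (T n)
    · exact Eventually.of_forall fun p h => absurd hT h
    · have hna : ∀ P : Polynomial ℂ, P ≠ 0 → Polynomial.aeval (T n) P ≠ 0 :=
        fun P hP h => hT ⟨P, hP, h⟩
      filter_upwards [residual_inf (T n) hna (fun _ => (c n)⁻¹) (differentiable_const _),
        residual_inf (T n) hna (fun _ => 0) (differentiable_const _),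
        residual_inf (T n) hna (fun z => z - a n) (by fun_prop)] with p hp1 hp2 hp3 _
      exact ⟨hp1, hp2, hp3⟩
  filter_upwards [h1, h2] with p hp1 hp2
  refine ⟨hp1, fun n => ?_⟩
  by_cases hT : IsAlgebraic ℂ (T n)
  · exact ⟨alg_case (T n) hX hT (c n) (a n) p.1 p.2 hp1, fun h => absurd hT h⟩
  · obtain ⟨h3, h4, h9⟩ := hp2 n hT
    obtain ⟨h5, h6⟩ := hyper_pert (T n) (hc n) p.1 p.2 h3
    obtain ⟨h7, h8⟩ := hyper_compr (T n) p.1 p.2 hp1 h4
    obtain ⟨h10, h11⟩ := hyper_extn (T n) p.1 p.2 (a n) h9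
    exact ⟨⟨h5.inv, h7.inv, h10.inv⟩, fun _ => ⟨⟨h5, h7, h10⟩, ⟨h6, h8, h11⟩⟩⟩

end Pool.Agent.W768.RK
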